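import Pool.Agent.T2H17.BL.Hyp

/-!
# The path configuration
-/

set_option autoImplicit false

open Finset

namespace Pool.Agent.T2H17.BL

/-- the row of the `i`-th edge of the path configuration -/
def pr (s : ℕ) (i : Fin s) : Fin (s + 1) := ⟨((i : ℕ) + 1) / 2, by have := i.2; omega⟩

/-- the column of the `i`-th edge of the path configuration -/
def pq (s : ℕ) (i : Fin s) : Fin 2 := ⟨(i : ℕ) % 2, by omega⟩

/-- the symbol of the `i`-th edge of the path configuration -/
def pz (s : ℕ) (i : Fin s) : Fin (s + 1) := ⟨(i : ℕ) / 2, by have := i.2; omega⟩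

theorem card_pr {s : ℕ} (E : Finset (Fin s)) :
    (E.image (pr s)).card = (E.image fun i : Fin s => ((i : ℕ) + 1) / 2).card := by
  rw [← card_image_of_injective (E.image (pr s)) Fin.val_injective, image_image]
  rfl

theorem card_pz {s : ℕ} (E : Finset (Fin s)) :
    (E.image (pz s)).card = (E.image fun i : Fin s => (i : ℕ) / 2).card := by
  rw [← card_image_of_injective (E.image (pz s)) Fin.val_injective, image_image]
  rfl

theorem path_LS (s : ℕ) : LS (pr s) (pq s) (pz s) := by
  classical
  intro E hE
  rw [card_pr, card_pz]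
  set A := E.image fun i : Fin s => ((i : ℕ) + 1) / 2 with hA
  set Z := E.image fun i : Fin s => (i : ℕ) / 2 with hZ
  have hne : E.Nonempty := by
    rw [← card_pos]
    omega
  by_cases hpar : (∃ i ∈ E, (i : ℕ) % 2 = 0) ∧ ∃ i ∈ E, (i : ℕ) % 2 = 1
  · obtain ⟨⟨i, hi, hi0⟩, ⟨j, hj, hj1⟩⟩ := hpar
    have h2 : 2 ≤ (E.image (pq s)).card := by
      show 1 < _
      rw [one_lt_card]
      refine ⟨pq s i, mem_image_of_mem _ hi, pq s j, mem_image_of_mem _ hj, ?_⟩
      intro h
      have := congrArg Fin.val h
      simp only [pq] at this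
      omega
    obtain ⟨M, hM, hmax⟩ := exists_max_image E (fun i : Fin s => (i : ℕ)) hne
    have h3 : insert ((M : ℕ) + 1) (E.image fun i : Fin s => (i : ℕ)) ⊆
        A.image (fun x => 2 * x) ∪ Z.image (fun x => 2 * x + 1) := by
      have key : ∀ i : Fin s, i ∈ E → ∀ y : ℕ, (y = i ∨ y = i + 1) →
          y ∈ A.image (fun x => 2 * x) ∪ Z.image (fun x => 2 * x + 1) := by
        intro i hi y hy
        rw [mem_union]
        by_cases hy2 : y % 2 = 0
        · left
          rw [mem_image]
          refine ⟨((i : ℕ) + 1) / 2, mem_image_of_mem _ hi, ?_⟩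
          omega
        · right
          rw [mem_image]
          refine ⟨(i : ℕ) / 2, mem_image_of_mem _ hi, ?_⟩
          omega
      intro y hy
      rw [mem_insert, mem_image] at hy
      rcases hy with rfl | ⟨i, hi, rfl⟩
      · exact key M hM _ (Or.inr rfl)
      · exact key i hi _ (Or.inl rfl)
    have h4 := card_le_card h3
    rw [card_insert_of_notMem, card_image_of_injective E Fin.val_injective] at h4
    · have h5 := h4.trans (card_union_le _ _)
      have h6 : (A.image (fun x => 2 * x)).card ≤ A.card := card_image_le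
      have h7 : (Z.image (fun x => 2 * x + 1)).card ≤ Z.card := card_image_le
      omega
    · rw [mem_image]
      rintro ⟨i, hi, h5⟩
      have := hmax i hi
      omega
  · have h1 : (1 : ℕ) ≤ (E.image (pq s)).card := (hne.image _).card_pos
    have hAc : A.card = E.card := by
      rw [hA, card_image_of_injOn]
      intro i hi j hj hij
      dsimp only at hij
      refine Fin.ext ?_
      by_contra hne'
      apply hpar
      have hi' := mem_coe.1 hi
      have hj' := mem_coe.1 hj
      rcases Nat.mod_two_eq_zero_or_one (i : ℕ) with h | h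
      · exact ⟨⟨i, hi', h⟩, ⟨j, hj', by omega⟩⟩
      · exact ⟨⟨j, hj', by omega⟩, ⟨i, hi', h⟩⟩
    have hZc : Z.card = E.card := by
      rw [hZ, card_image_of_injOn]
      intro i hi j hj hij
      dsimp only at hij
      refine Fin.ext ?_
      by_contra hne'
      apply hpar
      have hi' := mem_coe.1 hi
      have hj' := mem_coe.1 hj
      rcases Nat.mod_two_eq_zero_or_one (i : ℕ) with h | h
      · exact ⟨⟨i, hi', h⟩, ⟨j, hj', by omega⟩⟩
      · exact ⟨⟨j, hj', by omega⟩, ⟨i, hi', h⟩⟩
    omega

theorem path_card (s : ℕ) :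
    ((univ : Finset (Fin s)).image (pr s)).card + ((univ : Finset (Fin s)).image (pq s)).card +
      ((univ : Finset (Fin s)).image (pz s)).card ≤ s + 3 := by
  classical
  rw [card_pr, card_pz]
  have h1 : ((univ : Finset (Fin s)).image fun i : Fin s => ((i : ℕ) + 1) / 2).card ≤ s / 2 + 1 := by
    calc _ ≤ (range (s / 2 + 1)).card := by
          refine card_le_card fun x hx => ?_
          obtain ⟨i, _, rfl⟩ := mem_image.1 hx
          have := i.2
          rw [mem_range]
          omega
      _ = _ := card_range _
  have h2 : ((univ : Finset (Fin s)).image fun i : Fin s => (i : ℕ) / 2).card ≤ (s + 1) / 2 := by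
    calc _ ≤ (range ((s + 1) / 2)).card := by
          refine card_le_card fun x hx => ?_
          obtain ⟨i, _, rfl⟩ := mem_image.1 hx
          have := i.2
          rw [mem_range]
          omega
      _ = _ := card_range _
  have h3 : ((univ : Finset (Fin s)).image (pq s)).card ≤ 2 := by
    refine (card_le_univ _).trans ?_
    rw [Fintype.card_fin]
  omega

/-- a set which contains a copy of the path configuration has `s + 3` lines which span `s` cells -/
theorem path_spans {n s : ℕ} (hn : s + 3 ≤ n) (H : Finset (T n))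
    (φ : M n (s + 1) 2 (s + 1)) (hφ : φ ∈ inj n (s + 1) 2 (s + 1))
    (hH : ∀ i, tri (pr s) (pq s) (pz s) φ i ∈ H) :
    ∃ R C S : Finset (Fin n), R.card + C.card + S.card = s + 3 ∧
      s ≤ (H.filter fun t => t.1 ∈ R ∧ t.2.1 ∈ C ∧ t.2.2 ∈ S).card := by
  classical
  have hφ' := mem_inj.1 hφ
  set R₀ : Finset (Fin n) := ((univ : Finset (Fin s)).image (pr s)).image φ.1 with hR₀
  set C₀ : Finset (Fin n) := ((univ : Finset (Fin s)).image (pq s)).image φ.2.1 with hC₀
  set S₀ : Finset (Fin n) := ((univ : Finset (Fin s)).image (pz s)).image φ.2.2 with hS₀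
  have h1 : R₀.card = ((univ : Finset (Fin s)).image (pr s)).card :=
    card_image_of_injective _ hφ'.1
  have h2 : C₀.card = ((univ : Finset (Fin s)).image (pq s)).card :=
    card_image_of_injective _ hφ'.2.1
  have h3 : S₀.card = ((univ : Finset (Fin s)).image (pz s)).card :=
    card_image_of_injective _ hφ'.2.2
  have h4 := path_card s
  obtain ⟨R, hR1, _, hR2⟩ := exists_subsuperset_card_eq (s := R₀) (t := univ)
    (n := s + 3 - C₀.card - S₀.card) (subset_univ _) (by omega)
    (by rw [card_univ, Fintype.card_fin]; omega)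
  refine ⟨R, C₀, S₀, by omega, ?_⟩
  have h5 : ((univ : Finset (Fin s)).image (tri (pr s) (pq s) (pz s) φ)).card = s := by
    rw [card_image_of_injective, card_univ, Fintype.card_fin]
    intro i j hij
    unfold tri at hij
    simp only [Prod.mk.injEq] at hij
    exact (path_LS s).inj (hφ'.1 hij.1) (hφ'.2.1 hij.2.1) (hφ'.2.2 hij.2.2)
  calc s = _ := h5.symm
    _ ≤ _ := by
      refine card_le_card fun t ht => ?_
      obtain ⟨i, _, rfl⟩ := mem_image.1 ht
      rw [mem_filter]
      refine ⟨hH i, hR1 ?_, ?_, ?_⟩
      · exact mem_image_of_mem _ (mem_image_of_mem _ (mem_univ i))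
      · exact mem_image_of_mem _ (mem_image_of_mem _ (mem_univ i))
      · exact mem_image_of_mem _ (mem_image_of_mem _ (mem_univ i))

end Pool.Agent.T2H17.BL
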