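import Pool.Agent.T2H17.BL.Ext

/-!
# Estimates of factorials
-/

set_option autoImplicit false

open Finset

namespace Pool.Agent.T2H17.BL

theorem log_fact_ub (d : ℕ) (hd : 1 ≤ d) :
    Real.log (d.factorial : ℝ) ≤ d * Real.log d - d + 1 + Real.log d := by
  induction d, hd using Nat.le_induction with
  | base => simp
  | succ d hd ih =>
    have hd0 : (0 : ℝ) < d := by exact_mod_cast hd
    rw [Nat.factorial_succ]
    push_cast
    rw [Real.log_mul (by positivity) (by positivity)]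
    have h1 : 1 ≤ (d + 1 : ℝ) * (Real.log (d + 1) - Real.log d) := by
      rw [← Real.log_div (by positivity) (by positivity)]
      have h2 := Real.one_sub_inv_le_log_of_pos (show (0 : ℝ) < (d + 1) / d by positivity)
      have h3 : 1 - ((d + 1 : ℝ) / d)⁻¹ = 1 / (d + 1) := by field_simp; ring
      rw [h3] at h2
      have h4 := mul_le_mul_of_nonneg_left h2 (show (0 : ℝ) ≤ d + 1 by positivity)
      rwa [mul_one_div_cancel (by positivity)] at h4
    nlinarith

theorem log_fact_lb (d : ℕ) : (d : ℝ) * Real.log d - d ≤ Real.log (d.factorial : ℝ) := by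
  rcases Nat.eq_zero_or_pos d with rfl | hd
  · simp
  have hd0 : (0 : ℝ) < d := by exact_mod_cast hd
  have h1 := Real.pow_div_factorial_le_exp (x := (d : ℝ)) hd0.le d
  rw [div_le_iff₀ (by positivity)] at h1
  have h2 := Real.log_le_log (by positivity) h1
  rw [Real.log_pow, Real.log_mul (Real.exp_pos _).ne' (by positivity), Real.log_exp] at h2
  linarith

theorem gg_ub (d : ℕ) (hd : 1 ≤ d) : gg d ≤ Real.log d - 1 + (1 + Real.log d) / d := by
  have hd0 : (0 : ℝ) < d := by exact_mod_cast hd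
  unfold gg
  rw [div_le_iff₀ hd0]
  have h1 := log_fact_ub d hd
  calc Real.log (d.factorial : ℝ) ≤ d * Real.log d - d + 1 + Real.log d := h1
    _ = _ := by
      field_simp
      ring

theorem sum_gg (n N : ℕ) (hn : 1 ≤ n) (hN : N ≤ n) :
    ∑ d ∈ range N, gg (d + 1) ≤ Real.log (N.factorial : ℝ) - N + (1 + Real.log n) ^ 2 := by
  have hn1 : (1 : ℝ) ≤ n := by exact_mod_cast hn
  have hlog : 0 ≤ Real.log n := Real.log_nonneg hn1
  have h1 : ∑ d ∈ range N, gg (d + 1) ≤
      ∑ d ∈ range N, (Real.log ((d + 1 : ℕ) : ℝ) - 1 + (1 + Real.log n) * (((d + 1 : ℕ) : ℝ))⁻¹) := by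
    refine sum_le_sum fun d hd => (gg_ub (d + 1) (by omega)).trans ?_
    have hdn : ((d + 1 : ℕ) : ℝ) ≤ n := by
      have := mem_range.1 hd
      exact_mod_cast (by omega : d + 1 ≤ n)
    have hd0 : (0 : ℝ) < ((d + 1 : ℕ) : ℝ) := by positivity
    have h2 : Real.log ((d + 1 : ℕ) : ℝ) ≤ Real.log n := Real.log_le_log hd0 hdn
    rw [div_eq_mul_inv]
    have h3 : (1 + Real.log ((d + 1 : ℕ) : ℝ)) * (((d + 1 : ℕ) : ℝ))⁻¹ ≤
        (1 + Real.log n) * (((d + 1 : ℕ) : ℝ))⁻¹ :=
      mul_le_mul_of_nonneg_right (by linarith) (by positivity)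
    linarith
  refine h1.trans ?_
  rw [sum_add_distrib, sum_sub_distrib, ← mul_sum]
  have h2 : ∑ d ∈ range N, Real.log ((d + 1 : ℕ) : ℝ) = Real.log (N.factorial : ℝ) := by
    rw [← Finset.prod_range_add_one_eq_factorial]
    push_cast
    rw [Real.log_prod]
    intro d _
    positivity
  have h3 : ∑ d ∈ range N, (((d + 1 : ℕ) : ℝ))⁻¹ ≤ 1 + Real.log n := by
    have h4 : ∑ d ∈ range N, (((d + 1 : ℕ) : ℝ))⁻¹ ≤ ∑ d ∈ range n, (((d + 1 : ℕ) : ℝ))⁻¹ :=
      sum_le_sum_of_subset_of_nonneg (range_mono hN) fun _ _ _ => by positivity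
    refine h4.trans ?_
    have h5 := harmonic_le_one_add_log n
    unfold harmonic at h5
    push_cast at h5 ⊢
    exact h5
  rw [h2, sum_const, card_range, nsmul_eq_mul, mul_one, sq]
  have h4 := mul_le_mul_of_nonneg_left h3 (show 0 ≤ 1 + Real.log n by linarith)
  linarith

theorem log_fact_diff (n k : ℕ) (hk : 2 * k ≤ n) (hn : 1 ≤ n) :
    (k : ℝ) * Real.log n - 2 * k ^ 2 / n ≤
      Real.log (n.factorial : ℝ) - Real.log ((n - k).factorial : ℝ) := by
  have hn0 : (0 : ℝ) < n := by exact_mod_cast hn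
  have hk2 : (2 : ℝ) * k ≤ n := by exact_mod_cast hk
  have hk0 : (0 : ℝ) ≤ k := Nat.cast_nonneg k
  have hnk : ((n - k : ℕ) : ℝ) = n - k := Nat.cast_sub (by omega)
  have hnk0 : (0 : ℝ) < n - k := by
    rw [← hnk]
    exact_mod_cast (by omega : 0 < n - k)
  have h1 : ((n - k : ℕ) : ℝ) ^ k * ((n - k).factorial : ℝ) ≤ (n.factorial : ℝ) := by
    have h2 : (n - k + 1) ^ k * (n - k).factorial ≤ n.factorial := by
      have h3 := Nat.factorial_mul_pow_le_factorial (m := n - k) (n := k)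
      rw [Nat.sub_add_cancel (by omega)] at h3
      rw [mul_comm]
      exact h3
    have h4 : (n - k) ^ k * (n - k).factorial ≤ n.factorial :=
      (Nat.mul_le_mul_right _ (Nat.pow_le_pow_left (by omega) k)).trans h2
    exact_mod_cast h4
  have h2 := Real.log_le_log (by rw [hnk]; positivity) h1
  rw [Real.log_mul (by rw [hnk]; positivity) (by positivity), Real.log_pow, hnk] at h2
  have h3 : Real.log n - 2 * k / n ≤ Real.log (n - k) := by
    have h4 := Real.one_sub_inv_le_log_of_pos (show (0 : ℝ) < (n - k) / n by positivity)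
    rw [Real.log_div hnk0.ne' hn0.ne'] at h4
    have h5 : -(2 * (k : ℝ) / n) ≤ 1 - ((n - k : ℝ) / n)⁻¹ := by
      rw [inv_div]
      have h6 : 1 - (n : ℝ) / (n - k) = -(k / (n - k)) := by field_simp; ring
      rw [h6, neg_le_neg_iff, div_le_div_iff₀ hnk0 hn0]
      nlinarith
    linarith
  have h4 := mul_le_mul_of_nonneg_left h3 hk0
  have h5 : (k : ℝ) * (Real.log n - 2 * k / n) = k * Real.log n - 2 * k ^ 2 / n := by
    field_simp
  linarith

theorem balance (n k : ℕ) (hk : 2 * k ≤ n) (hn : 1 ≤ n) :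
    k * Real.log (n.factorial : ℝ) + n * ∑ d ∈ range (n - k), gg (d + 1) ≤
      n * Real.log (n.factorial : ℝ) - n ^ 2 + (2 * k ^ 2 + 2 * n * (1 + Real.log n) ^ 2) := by
  have hn0 : (0 : ℝ) < n := by exact_mod_cast hn
  have hn1 : (1 : ℝ) ≤ n := by exact_mod_cast hn
  have hlog : 0 ≤ Real.log n := Real.log_nonneg hn1
  have hk2 : (2 : ℝ) * k ≤ n := by exact_mod_cast hk
  have hk0 : (0 : ℝ) ≤ k := Nat.cast_nonneg k
  have hnk : ((n - k : ℕ) : ℝ) = n - k := Nat.cast_sub (by omega)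
  have h1 := mul_le_mul_of_nonneg_left (sum_gg n (n - k) hn (by omega)) hn0.le
  have h2 := mul_le_mul_of_nonneg_left (log_fact_diff n k hk hn) hn0.le
  have h3 := mul_le_mul_of_nonneg_left (log_fact_ub n hn) hk0
  rw [hnk] at h1
  have h4 : (n : ℝ) * (k * Real.log n - 2 * k ^ 2 / n) = n * k * Real.log n - 2 * k ^ 2 := by
    field_simp
  rw [h4] at h2
  have h5 : (k : ℝ) * (1 + Real.log n) ≤ n * (1 + Real.log n) ^ 2 := by
    have h6 : (k : ℝ) ≤ n := by linarith
    have h7 : (1 + Real.log n) ≤ (1 + Real.log n) ^ 2 := by nlinarith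
    exact mul_le_mul h6 h7 (by linarith) hn0.le
  nlinarith

end Pool.Agent.T2H17.BL
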