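import Mathlib

open Finset

namespace Pool.Agent.T2H17.BL

/-- `log (r!) / r` -/
noncomputable def GG (r : ℕ) : ℝ := Real.log (r.factorial : ℝ) / (r : ℝ)

theorem mul_GG (r : ℕ) : (r : ℝ) * GG r = Real.log (r.factorial : ℝ) := by
  unfold GG
  rcases Nat.eq_zero_or_pos r with h | h
  · subst h; simp
  · have : (r : ℝ) ≠ 0 := by positivity
    field_simp

/-- the elementary identity `log r + (r-1) G(r-1) + (n-r) G(r) = n G(r)` -/
theorem GG_identity (n r : ℕ) (hr : 1 ≤ r) :
    Real.log (r : ℝ) + (((r - 1 : ℕ) : ℝ) * GG (r - 1) + ((n : ℝ) - r) * GG r) = n * GG r := by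
  have h1 := mul_GG r
  have h2 := mul_GG (r - 1)
  have h3 : Real.log (r.factorial : ℝ) = Real.log (r : ℝ) + Real.log ((r - 1).factorial : ℝ) := by
    rw [← Real.log_mul (by positivity) (by positivity), ← Nat.cast_mul,
      Nat.mul_factorial_pred (by omega)]
  rw [h2]
  have : ((n : ℝ) - r) * GG r = n * GG r - r * GG r := by ring
  rw [this, h1, h3]
  ring

section step

variable {α β : Type} [Fintype α] [DecidableEq α] [Fintype β] [DecidableEq β]

/-- removing one column: the row sums -/
theorem row_erase (A : α → β → Prop) [∀ a b, Decidable (A a b)] (x : α) (b : β) :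
    (univ.filter fun y : {y : β // y ≠ b} => A x y.1).card =
      if A x b then (univ.filter fun y => A x y).card - 1 else (univ.filter fun y => A x y).card := by
  have h : (univ.filter fun y : {y : β // y ≠ b} => A x y.1).card =
      ((univ.filter fun y => A x y).erase b).card := by
    refine Finset.card_bij (fun y _ => y.1) ?_ ?_ ?_
    · intro y hy
      simp only [mem_filter, mem_univ, true_and] at hy
      simp [y.2, hy]
    · intro y _ z _ h
      exact Subtype.ext h
    · intro y hy
      simp only [mem_erase, mem_filter, mem_univ, true_and] at hy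
      exact ⟨⟨y, hy.1⟩, by simp [hy.2], rfl⟩
  rw [h, Finset.card_erase_eq_ite]
  simp

/-- the permutations with a prescribed value inject into the permutations of the smaller types -/
theorem card_fibre (A : α → β → Prop) [∀ a b, Decidable (A a b)] (a : α) (b : β) :
    ((univ.filter fun σ : α ≃ β => ∀ a, A a (σ a)).filter fun σ => σ a = b).card ≤
      (univ.filter fun τ : {x : α // x ≠ a} ≃ {y : β // y ≠ b} => ∀ x, A x.1 (τ x).1).card := by
  classical
  rw [Finset.filter_filter, ← Fintype.card_subtype, ← Fintype.card_subtype]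
  have key : ∀ σ : α ≃ β, σ a = b → ∀ x : α, x ≠ a ↔ σ x ≠ b := by
    intro σ h x
    rw [← h]
    simp
  refine Fintype.card_le_of_injective
    (fun σ => ⟨σ.1.subtypeEquiv (key σ.1 σ.2.2), fun x => σ.2.1 x.1⟩) ?_
  intro σ τ h
  apply Subtype.ext
  apply Equiv.ext
  intro x
  by_cases hx : x = a
  · rw [hx, σ.2.2, τ.2.2]
  · have h1 := congrArg (fun t => (t.1 ⟨x, hx⟩).1) h
    simpa using h1

/-- Jensen for `x log x` -/
theorem jensen_row (A : α → β → Prop) [∀ a b, Decidable (A a b)] (a : α)
    (S : Finset (α ≃ β)) (hS : ∀ σ ∈ S, ∀ a, A a (σ a)) (hP : S.Nonempty) :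
    (S.card : ℝ) * Real.log S.card ≤
      S.card * Real.log ((univ.filter fun b => A a b).card : ℝ) +
        ∑ σ ∈ S, Real.log ((S.filter fun τ => τ a = σ a).card : ℝ) := by
  classical
  set R := univ.filter fun b => A a b with hR
  set m : β → ℝ := fun b => ((S.filter fun τ => τ a = b).card : ℝ) with hm
  have hmaps : ∀ σ ∈ S, σ a ∈ R := by
    intro σ hσ
    rw [hR]
    simp [hS σ hσ a]
  have hRpos : 0 < (R.card : ℝ) := by
    obtain ⟨σ, hσ⟩ := hP
    exact_mod_cast Finset.card_pos.mpr ⟨_, hmaps σ hσ⟩
  have hsum : ∑ b ∈ R, m b = S.card := by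
    rw [Finset.card_eq_sum_card_fiberwise (f := fun σ : α ≃ β => σ a) (t := R)
      (fun σ hσ => hmaps σ hσ)]
    push_cast
    rfl
  have hsum2 : ∑ σ ∈ S, Real.log ((S.filter fun τ => τ a = σ a).card : ℝ) =
      ∑ b ∈ R, m b * Real.log (m b) := by
    rw [← Finset.sum_fiberwise_of_maps_to (g := fun σ : α ≃ β => σ a) (t := R)
      (fun σ hσ => hmaps σ hσ)]
    refine Finset.sum_congr rfl fun b _ => ?_
    rw [Finset.sum_congr rfl (g := fun _ => Real.log (m b))]
    · rw [Finset.sum_const, nsmul_eq_mul]
    · intro σ hσ
      simp only [mem_filter] at hσ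
      simp only [hm, hσ.2]
  rw [hsum2]
  have hj := Real.convexOn_mul_log.map_sum_le (t := R) (w := fun _ => (R.card : ℝ)⁻¹) (p := m)
    (fun _ _ => by positivity) (by
      rw [Finset.sum_const, nsmul_eq_mul]
      exact mul_inv_cancel₀ hRpos.ne')
    (fun b _ => by simp only [Set.mem_Ici, hm]; positivity)
  simp only [smul_eq_mul] at hj
  rw [← Finset.mul_sum, ← Finset.mul_sum, hsum] at hj
  have hPpos : 0 < (S.card : ℝ) := by exact_mod_cast hP.card_pos
  rw [Real.log_mul (by positivity) (by positivity), Real.log_inv] at hj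
  have h2 : (S.card : ℝ) * (-Real.log R.card + Real.log S.card) ≤ ∑ b ∈ R, m b * Real.log (m b) := by
    have h3 := mul_le_mul_of_nonneg_left hj hRpos.le
    calc (S.card : ℝ) * (-Real.log R.card + Real.log S.card)
        = (R.card : ℝ) * ((R.card : ℝ)⁻¹ * S.card * (-Real.log R.card + Real.log S.card)) := by
          field_simp
      _ ≤ (R.card : ℝ) * ((R.card : ℝ)⁻¹ * ∑ b ∈ R, m b * Real.log (m b)) := h3
      _ = _ := by field_simp
  linarith

end step

theorem bregman_aux (n : ℕ) : ∀ (α β : Type) [Fintype α] [DecidableEq α] [Fintype β]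
    [DecidableEq β] (A : α → β → Prop) [∀ a b, Decidable (A a b)], Fintype.card α = n →
    ((univ.filter fun σ : α ≃ β => ∀ a, A a (σ a)).card : ℝ) ≤
      Real.exp (∑ a, GG (univ.filter fun b => A a b).card) := by
  induction n with
  | zero =>
    intro α β _ _ _ _ A _ hcard
    have : IsEmpty α := Fintype.card_eq_zero_iff.mp hcard
    have h1 : (univ.filter fun σ : α ≃ β => ∀ a, A a (σ a)).card ≤ 1 := by
      apply Finset.card_le_one.mpr
      intro σ _ τ _
      exact Equiv.ext fun x => (this.false x).elim
    have h2 : ∑ a, GG (univ.filter fun b => A a b).card = 0 := by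
      apply Finset.sum_eq_zero
      intro x
      exact (this.false x).elim
    rw [h2, Real.exp_zero]
    exact_mod_cast h1
  | succ n ih =>
    intro α β _ _ _ _ A _ hcard
    set S := univ.filter fun σ : α ≃ β => ∀ a, A a (σ a) with hSdef
    have hS : ∀ σ ∈ S, ∀ a, A a (σ a) := by
      intro σ hσ
      rw [hSdef] at hσ
      simpa using hσ
    set r : α → ℕ := fun a => (univ.filter fun b => A a b).card with hr
    rcases S.eq_empty_or_nonempty with hE | hP
    · rw [hE]
      simp only [card_empty, Nat.cast_zero]
      positivity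
    have hPpos : 0 < (S.card : ℝ) := by exact_mod_cast hP.card_pos
    -- the induction hypothesis
    have hfib : ∀ σ ∈ S, ∀ a, Real.log ((S.filter fun τ => τ a = σ a).card : ℝ) ≤
        ∑ x ∈ univ.erase a, GG (if A x (σ a) then r x - 1 else r x) := by
      intro σ hσ a
      have h1 := card_fibre A a (σ a)
      have h2 := ih {x : α // x ≠ a} {y : β // y ≠ σ a} (fun x y => A x.1 y.1) (by
        rw [Fintype.card_subtype_compl, hcard, Fintype.card_unique]
        rfl)
      have h3 : (∑ x : {x : α // x ≠ a}, GG (univ.filter fun y : {y : β // y ≠ σ a} =>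
          A x.1 y.1).card) = ∑ x ∈ univ.erase a, GG (if A x (σ a) then r x - 1 else r x) := by
        rw [Finset.sum_subtype (univ.erase a) (p := fun x => x ≠ a) (by simp)]
        refine Finset.sum_congr rfl fun x _ => ?_
        rw [row_erase A x.1 (σ a)]
      rw [h3] at h2
      have h4 : 0 < ((S.filter fun τ => τ a = σ a).card : ℝ) := by
        exact_mod_cast Finset.card_pos.mpr ⟨σ, by simp [hσ]⟩
      rw [Real.log_le_iff_le_exp h4]
      exact le_trans (by exact_mod_cast h1) h2
    have hjen : ∀ a, (S.card : ℝ) * Real.log S.card ≤ ∑ σ ∈ S, (Real.log (r a) +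
        ∑ x ∈ univ.erase a, GG (if A x (σ a) then r x - 1 else r x)) := by
      intro a
      have h1 := jensen_row A a S hS hP
      refine h1.trans ?_
      rw [Finset.sum_add_distrib, Finset.sum_const, nsmul_eq_mul]
      have h2 := Finset.sum_le_sum fun σ hσ => hfib σ hσ a
      simp only [hr] at h2 ⊢
      linarith
    have hinner : ∀ σ ∈ S, ∑ a, (Real.log (r a) +
        ∑ x ∈ univ.erase a, GG (if A x (σ a) then r x - 1 else r x)) =
        ((n + 1 : ℕ) : ℝ) * ∑ x, GG (r x) := by
      intro σ hσ
      rw [Finset.sum_add_distrib]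
      have hswap : ∑ a, ∑ x ∈ univ.erase a, GG (if A x (σ a) then r x - 1 else r x) =
          ∑ x, ∑ a ∈ univ.erase x, GG (if A x (σ a) then r x - 1 else r x) := by
        apply Finset.sum_comm'
        intro x y
        simp only [mem_erase, mem_univ, true_and, and_true, ne_eq]
        exact ⟨fun h e => h e.symm, fun h e => h e.symm⟩
      rw [hswap, ← Finset.sum_add_distrib, Finset.mul_sum]
      refine Finset.sum_congr rfl fun x _ => ?_
      have hcx : ((univ : Finset α).filter fun a => A x (σ a)).card = r x := by
        simp only [hr]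
        refine Finset.card_bij (fun a _ => σ a) ?_ ?_ ?_
        · intro a ha
          simpa using ha
        · intro a _ b _ h
          exact σ.injective h
        · intro b hb
          exact ⟨σ.symm b, by simpa using hb, by simp⟩
      have hrx : 1 ≤ r x := by
        rw [← hcx]
        exact Finset.card_pos.mpr ⟨x, by simp [hS σ hσ x]⟩
      have hmem : x ∈ (univ : Finset α).filter fun a => A x (σ a) := by simp [hS σ hσ x]
      have hc1 : ((univ.erase x).filter fun a => A x (σ a)).card = r x - 1 := by
        have he : (univ.erase x).filter (fun a => A x (σ a)) =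
            ((univ : Finset α).filter fun a => A x (σ a)).erase x := by
          ext y
          simp only [mem_filter, mem_erase, mem_univ, true_and, and_true]
        rw [he, Finset.card_erase_of_mem hmem, hcx]
      have hc2 : ((univ.erase x).filter fun a => ¬ A x (σ a)).card = n + 1 - r x := by
        have h1 := Finset.card_filter_add_card_filter_not (s := univ.erase x)
          (fun a => A x (σ a))
        rw [hc1, Finset.card_erase_of_mem (mem_univ x), Finset.card_univ, hcard] at h1
        omega
      have hle : r x ≤ n + 1 := by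
        rw [← hcx, ← hcard, ← Finset.card_univ]
        exact Finset.card_filter_le _ _
      have hin : ∑ a ∈ univ.erase x, GG (if A x (σ a) then r x - 1 else r x) =
          ((r x - 1 : ℕ) : ℝ) * GG (r x - 1) + (((n + 1 : ℕ) : ℝ) - r x) * GG (r x) := by
        rw [← Finset.sum_filter_add_sum_filter_not (univ.erase x) (fun a => A x (σ a))]
        rw [Finset.sum_congr rfl (g := fun _ => GG (r x - 1)),
          Finset.sum_congr (s₁ := (univ.erase x).filter fun a => ¬ A x (σ a)) rfl
            (g := fun _ => GG (r x))]
        · rw [Finset.sum_const, Finset.sum_const, hc1, hc2, nsmul_eq_mul, nsmul_eq_mul,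
            Nat.cast_sub hle]
        · intro a ha
          simp only [mem_filter] at ha
          rw [if_neg ha.2]
        · intro a ha
          simp only [mem_filter] at ha
          rw [if_pos ha.2]
      rw [hin]
      exact GG_identity (n + 1) (r x) hrx
    have htot : ((n + 1 : ℕ) : ℝ) * ((S.card : ℝ) * Real.log S.card) ≤
        S.card * (((n + 1 : ℕ) : ℝ) * ∑ x, GG (r x)) := by
      have h1 := Finset.sum_le_sum (s := univ) fun a _ => hjen a
      rw [Finset.sum_const, Finset.card_univ, hcard, nsmul_eq_mul, Finset.sum_comm] at h1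
      rw [Finset.sum_congr rfl hinner, Finset.sum_const, nsmul_eq_mul] at h1
      exact h1
    have hlog : Real.log S.card ≤ ∑ x, GG (r x) := by
      have hn : (0 : ℝ) < ((n + 1 : ℕ) : ℝ) := by positivity
      have h5 : (((n + 1 : ℕ) : ℝ) * S.card) * Real.log S.card ≤
          (((n + 1 : ℕ) : ℝ) * S.card) * ∑ x, GG (r x) := by
        nlinarith [htot]
      exact le_of_mul_le_mul_left h5 (by positivity)
    exact (Real.log_le_iff_le_exp hPpos).mp hlog

/-- **The Bregman-Minc inequality** (0/1 matrices, row sums (univ.filter (A a)).card) -/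
theorem bregman {α β : Type} [Fintype α] [DecidableEq α] [Fintype β] [DecidableEq β]
    (A : α → β → Prop) [∀ a b, Decidable (A a b)] :
    ((univ.filter fun σ : α ≃ β => ∀ a, A a (σ a)).card : ℝ) ≤
      Real.exp (∑ a, Real.log ((univ.filter fun b => A a b).card.factorial : ℝ) /
        ((univ.filter fun b => A a b).card : ℝ)) :=
  bregman_aux (Fintype.card α) α β A rfl

end Pool.Agent.T2H17.BL
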