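import Pool.Agent.Y940.CT.Iter

/-!
# The container lemma with polynomial dependence on the parameters
-/

set_option autoImplicit false

open Finset
open Pool.Agent.Y940.CT (Spread deg Ind Cov phase total_le_sum_deg)

namespace Pool.Agent.T2H17.BL

/-- **The container lemma** with explicit constants. -/
theorem containersE (s : ℕ) (hs : 1 ≤ s) : ∃ (c : ℝ) (m : ℕ), 1 ≤ c ∧ 1 ≤ m ∧ ∀ K : ℝ, 1 ≤ K →
    ∀ (U : Finset ℕ) (w : Finset ℕ → ℝ) (D τ : ℝ) (q : ℕ), 0 < D → 0 < τ →
      τ ≤ 1 / (c * K ^ m) → U.card * τ ≤ q → (q : ℝ) ≤ 2 * τ * U.card → Spread U s w D K τ →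
      Cov (fun I => I ⊆ U ∧ Ind w I) U ((τ⁻¹ ^ q * (1 + τ) ^ U.card) ^ (s - 1))
        ((1 - 1 / (c * K ^ m)) * U.card) := by
  classical
  induction s, hs using Nat.le_induction with
  | base =>
    refine ⟨1, 1, le_rfl, le_rfl, ?_⟩
    intro K hK U w D τ q hD hτ _ _ _ hw
    rw [Nat.sub_self, pow_zero, pow_one, one_mul]
    refine (Cov.one (C := U.filter fun v => w {v} = 0) (filter_subset _ _) ?_ ?_).mono
      (P := fun I => I ⊆ U ∧ Ind w I) (fun I hI => hI) le_rfl le_rfl
    · have h1 : ∑ e ∈ U.powerset, w e ≤ ∑ v ∈ U.filter (fun v => ¬ w {v} = 0), deg U w {v} := by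
        refine total_le_sum_deg hw.nonneg fun e he => ?_
        obtain ⟨h2, h3⟩ := hw.supp e he
        obtain ⟨x, rfl⟩ := card_eq_one.1 h3
        refine ⟨?_, singleton_nonempty x⟩
        rw [singleton_subset_iff, mem_filter]
        exact ⟨h2 (mem_singleton_self x), he⟩
      have h2 : ∑ v ∈ U.filter (fun v => ¬ w {v} = 0), deg U w {v} ≤
          (U.filter (fun v => ¬ w {v} = 0)).card * (K * D) := by
        rw [← nsmul_eq_mul, ← sum_const]
        refine sum_le_sum fun v _ => ?_
        have := hw.codeg {v} (singleton_nonempty v)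
        rw [card_singleton, pow_one] at this
        exact le_of_mul_le_mul_right this hτ
      have h3 : ((U.filter fun v => w {v} = 0).card : ℝ) +
          (U.filter (fun v => ¬ w {v} = 0)).card = U.card := by
        exact_mod_cast card_filter_add_card_filter_not (s := U) (fun v => w {v} = 0)
      have h4 : (U.card : ℝ) * D ≤ ((U.filter (fun v => ¬ w {v} = 0)).card * K) * D := by
        have := hw.total
        linarith
      have h5 := le_of_mul_le_mul_right h4 hD
      have h6 : (U.card : ℝ) / K ≤ (U.filter (fun v => ¬ w {v} = 0)).card := by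
        rw [div_le_iff₀ (by linarith)]
        exact h5
      have h7 : (1 - 1 / K) * U.card = (U.card : ℝ) - U.card / K := by ring
      rw [h7]
      linarith
    · rintro I ⟨h1, h2⟩ v hv
      rw [mem_filter]
      exact ⟨h1 hv, h2 {v} (singleton_subset_iff.2 hv)⟩
  | succ s hs ih =>
    obtain ⟨c, m, hc, hm, ih⟩ := ih
    set c' : ℝ := 4 * (2 ^ (s + 3) + 1) with hc'
    have hc'1 : 1 ≤ c' := by
      have : (1 : ℝ) ≤ 2 ^ (s + 3) := one_le_pow₀ (by norm_num)
      rw [hc']
      linarith
    have hcm1 : 1 ≤ c * c' ^ m := one_le_mul_of_one_le_of_one_le hc (one_le_pow₀ hc'1)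
    refine ⟨8 * (c * c' ^ m), 2 * m, by linarith, by omega, ?_⟩
    intro K hK
    have hK0 : 0 < K := by linarith
    set C : ℝ := 2 ^ (s + 3) * K ^ 2 with hC
    have hC0 : 0 < C := by positivity
    have hmain := ih (4 * (C + K)) (by linarith)
    set δ₁ : ℝ := 1 / (c * (4 * (C + K)) ^ m) with hδ₁
    set δ : ℝ := 1 / (8 * (c * c' ^ m) * K ^ (2 * m)) with hδ
    have hKK : 4 * (C + K) ≤ c' * K ^ 2 := by
      rw [hC, hc']
      nlinarith
    have hδδ₁ : δ ≤ δ₁ := by
      rw [hδ, hδ₁]
      refine one_div_le_one_div_of_le (by positivity) ?_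
      calc c * (4 * (C + K)) ^ m ≤ c * (c' * K ^ 2) ^ m :=
            mul_le_mul_of_nonneg_left (pow_le_pow_left₀ (by positivity) hKK _) (by positivity)
        _ = 1 * (c * c' ^ m * K ^ (2 * m)) := by
            rw [mul_pow, ← pow_mul]
            ring
        _ ≤ 8 * (c * c' ^ m * K ^ (2 * m)) :=
            mul_le_mul_of_nonneg_right (by norm_num) (by positivity)
        _ = _ := by ring
    have hδK : δ ≤ 1 / (8 * K) := by
      rw [hδ]
      refine one_div_le_one_div_of_le (by positivity) ?_
      have h1 : K ≤ K ^ (2 * m) := by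
        calc K = K ^ 1 := (pow_one K).symm
          _ ≤ K ^ (2 * m) := pow_le_pow_right₀ hK (by omega)
      calc 8 * K = 8 * (1 * K) := by ring
        _ ≤ 8 * ((c * c' ^ m) * K ^ (2 * m)) :=
            mul_le_mul_of_nonneg_left (mul_le_mul hcm1 h1 hK0.le (by positivity)) (by norm_num)
        _ = _ := by ring
    have hδ0 : 0 < δ := by positivity
    have hδ1 : δ ≤ 1 := by
      refine hδK.trans ?_
      rw [div_le_one (by positivity)]
      linarith
    intro U w D τ q hD hτ hτle hq1 hq2 hw
    have hτ1 : τ ≤ 1 := hτle.trans hδ1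
    have hU0 : (0 : ℝ) ≤ U.card := Nat.cast_nonneg _
    set n : ℝ := (τ⁻¹ ^ q * (1 + τ) ^ U.card) ^ (s - 1) with hn
    have hbase : 1 ≤ τ⁻¹ ^ q * (1 + τ) ^ U.card :=
      one_le_mul_of_one_le_of_one_le (one_le_pow₀ ((one_le_inv₀ hτ).2 hτ1))
        (one_le_pow₀ (by linarith))
    have hn1 : 1 ≤ n := one_le_pow₀ hbase
    set γ : ℝ := (1 - δ) * U.card with hγ
    have hγ1 : (1 - δ₁) * U.card ≤ γ := by
      rw [hγ]
      refine mul_le_mul_of_nonneg_right ?_ hU0
      linarith
    have hγ2 : (U.card : ℝ) - U.card / (2 * K) + q ≤ γ := by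
      have h1 : τ ≤ 1 / (8 * K) := hτle.trans hδK
      have h2 : (q : ℝ) ≤ U.card / (4 * K) := by
        refine hq2.trans ?_
        calc 2 * τ * U.card ≤ 2 * (1 / (8 * K)) * U.card := by
              refine mul_le_mul_of_nonneg_right ?_ hU0
              linarith
          _ = U.card / (4 * K) := by
              field_simp
              ring
      have h3 : (1 - 1 / (4 * K)) * U.card ≤ γ := by
        rw [hγ]
        refine mul_le_mul_of_nonneg_right ?_ hU0
        have : 1 / (8 * K) ≤ 1 / (4 * K) := one_div_le_one_div_of_le (by positivity) (by linarith)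
        linarith
      refine le_trans ?_ h3
      have h4 : (1 - 1 / (4 * K)) * U.card = (U.card : ℝ) - U.card / (2 * K) + U.card / (4 * K) := by
        field_simp
        ring
      rw [h4]
      linarith
    have h := phase hw hD hK hτ hτ1 hq1 hq2 hC hγ2 hn1
      (fun g hg => (hmain U g (τ * D / 4) τ q (by positivity) hτ
        (hτle.trans hδδ₁) hq1 hq2 hg).mono (fun I hI => hI) le_rfl hγ1)
      U.card U ∅ (fun _ => 0) q 0 rfl (Subset.refl U) (empty_subset U) (by omega) (by simp)
      (fun _ => le_rfl) (fun f hf => absurd rfl hf) (by simp) (by simp) ?_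
    · refine h.mono ?_ (le_of_eq ?_) le_rfl
      · rintro I ⟨h1, h2⟩
        exact ⟨h1.trans subset_union_left, h2, fun _ _ => rfl⟩
      · rw [hn, Nat.add_sub_cancel]
        obtain ⟨s', rfl⟩ : ∃ s', s = s' + 1 := ⟨s - 1, by omega⟩
        rw [Nat.add_sub_cancel, pow_succ]
        ring
    · intro J _
      have h1 : deg U (fun _ => (0 : ℝ)) J = 0 := by
        unfold deg
        exact sum_eq_zero fun e _ => by split_ifs <;> rfl
      rw [h1]
      positivity

end Pool.Agent.T2H17.BL
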