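import Pool.Agent.T2H17.BL.Hyp

/-!
# Containers for the sets without a copy of a locally sparse configuration
-/

set_option autoImplicit false

open Finset Filter
open Pool.Agent.Y940.CT (Spread deg Ind Cov containers cost)

namespace Pool.Agent.T2H17.BL

theorem Cov.mono_set {P : Finset ℕ → Prop} {U V : Finset ℕ} {m γ : ℝ} (h : Cov P U m γ)
    (hUV : U ⊆ V) : Cov P V m γ := by
  obtain ⟨C, h1, h2, h3⟩ := h
  exact ⟨C, h1, fun c hc => ⟨(h2 c hc).1.trans hUV, (h2 c hc).2⟩, h3⟩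

section

variable {s a b c : ℕ} (r : Fin s → Fin a) (q : Fin s → Fin b) (z : Fin s → Fin c)

/-- `I` contains no copy -/
def Free (n : ℕ) (I : Finset ℕ) : Prop := ∀ φ ∈ inj n a b c, ¬ img r q z φ ⊆ I

theorem ind_of_free {n : ℕ} {U I : Finset ℕ} (hI : Free r q z n I) : Ind (wU r q z n U) I := by
  intro e he
  unfold wU
  rw [Nat.cast_eq_zero, card_eq_zero, filter_eq_empty_iff]
  rintro φ hφ ⟨h1, _⟩
  exact hI φ hφ (by rw [h1]; exact he)

theorem one_step (h : LS r q z) (hs : 1 ≤ s) (x : ℝ) (hx0 : 0 < x) (hx1 : x ≤ 1) :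
    ∃ δ : ℝ, 0 < δ ∧ δ ≤ 1 ∧ ∃ C : ℝ, 0 ≤ C ∧ ∃ n₀ : ℕ, ∀ n : ℕ, n₀ ≤ n → ∀ U : Finset ℕ,
      U ⊆ range (n ^ 3) → x * n ^ 3 ≤ U.card →
      Cov (fun I => I ⊆ U ∧ Free r q z n I) U
        (Real.exp (C * (n : ℝ) ^ (2 - 1 / (2 * (s : ℝ))))) ((1 - δ) * U.card) := by
  classical
  have hs1 : (1 : ℝ) ≤ s := by exact_mod_cast hs
  have hs0 : (0 : ℝ) < s := by linarith
  have hxp : 0 < x ^ (a * b * c) := pow_pos hx0 _
  have hxp1 : x ^ (a * b * c) ≤ 1 := pow_le_one₀ hx0.le hx1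
  have hK : 1 ≤ 2 * (s : ℝ) ^ s / x ^ (a * b * c) := by
    rw [le_div_iff₀ hxp, one_mul]
    have := one_le_pow₀ hs1 (n := s)
    linarith
  obtain ⟨δ, hδ0, hδ1, τ₀, hτ₀0, hτ₀1, hcont⟩ := containers s hs _ hK
  set ζ : ℝ := 1 / (2 * ((s : ℝ) + 1)) with hζ
  have hζ0 : 0 < ζ := by positivity
  refine ⟨δ, hδ0, hδ1, ((s - 1 : ℕ) : ℝ) * (2 / ζ + 1), by positivity,
    max 1 (max ⌈1 / τ₀⌉₊ (max ⌈1 / x⌉₊
      ⌈((a : ℝ) ^ 2 + b ^ 2 + c ^ 2) / (x ^ (a * b * c) / 2)⌉₊)), ?_⟩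
  intro n hn U hU hxU
  have hn1 : 1 ≤ n := (le_max_left _ _).trans hn
  have hn2 : ⌈1 / τ₀⌉₊ ≤ n := ((le_max_left _ _).trans (le_max_right _ _)).trans hn
  have hn3 : ⌈1 / x⌉₊ ≤ n :=
    ((le_max_left _ _).trans ((le_max_right _ _).trans (le_max_right _ _))).trans hn
  have hn4 : ⌈((a : ℝ) ^ 2 + b ^ 2 + c ^ 2) / (x ^ (a * b * c) / 2)⌉₊ ≤ n :=
    ((le_max_right _ _).trans ((le_max_right _ _).trans (le_max_right _ _))).trans hn
  have hn1' : (1 : ℝ) ≤ n := by exact_mod_cast hn1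
  have hn0' : (0 : ℝ) < n := by linarith
  have hn2' : 1 / τ₀ ≤ n := Nat.ceil_le.1 hn2
  have hn3' : 1 / x ≤ n := Nat.ceil_le.1 hn3
  have hn4' : ((a : ℝ) ^ 2 + b ^ 2 + c ^ 2) / (x ^ (a * b * c) / 2) ≤ n := Nat.ceil_le.1 hn4
  have hbig : (a : ℝ) ^ 2 + b ^ 2 + c ^ 2 ≤ x ^ (a * b * c) / 2 * n := by
    rw [div_le_iff₀ (by positivity)] at hn4'
    linarith
  set τ : ℝ := (n : ℝ) ^ (-(1 + 1 / (s : ℝ))) with hτ
  have hτ0 : 0 < τ := Real.rpow_pos_of_pos hn0' _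
  have hτn : τ ≤ (n : ℝ)⁻¹ := by
    rw [hτ, ← Real.rpow_neg_one]
    refine Real.rpow_le_rpow_of_exponent_le hn1' ?_
    have : (0 : ℝ) < 1 / s := by positivity
    linarith
  have hττ : τ ≤ τ₀ := by
    refine hτn.trans ?_
    rw [inv_le_comm₀ hn0' hτ₀0, ← one_div]
    exact hn2'
  have hτ1 : τ ≤ 1 := hττ.trans hτ₀1
  have hτe : ∀ e : ℕ, 2 ≤ e → e ≤ s → 1 ≤ τ ^ (e - 1) * (n : ℝ) ^ e := by
    intro e he hes
    have h1 : τ ^ (e - 1) * (n : ℝ) ^ e = (n : ℝ) ^ (-(1 + 1 / (s : ℝ)) * ((e - 1 : ℕ) : ℝ) + e) := by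
      rw [Real.rpow_add hn0', Real.rpow_mul hn0'.le, Real.rpow_natCast, Real.rpow_natCast]
    rw [h1]
    refine Real.one_le_rpow hn1' ?_
    have h2 : ((e - 1 : ℕ) : ℝ) = e - 1 := by
      rw [Nat.cast_sub (by omega), Nat.cast_one]
    rw [h2]
    have h3 : (e : ℝ) ≤ s := by exact_mod_cast hes
    have h4 : 1 / (s : ℝ) * ((e : ℝ) - 1) ≤ 1 := by
      rw [one_div, inv_mul_le_iff₀ hs0]
      linarith
    have h5 : -(1 + 1 / (s : ℝ)) * ((e : ℝ) - 1) + e = 1 - 1 / (s : ℝ) * ((e : ℝ) - 1) := by ring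
    rw [h5]
    linarith
  have hsp := spread r q z hn1 h hs U hU x hx0 hxU hbig τ hτ0 hτe
  have hUτ : 1 ≤ U.card * τ := by
    have h1 : (n : ℝ) ^ (-(2 : ℝ)) ≤ τ := by
      rw [hτ]
      refine Real.rpow_le_rpow_of_exponent_le hn1' ?_
      have : 1 / (s : ℝ) ≤ 1 := by
        rw [div_le_one hs0]; exact hs1
      linarith
    have h2 : (n : ℝ) ^ (-(2 : ℝ)) = 1 / (n : ℝ) ^ 2 := by
      rw [Real.rpow_neg hn0'.le, ← Real.rpow_natCast, one_div]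
      norm_num
    rw [h2] at h1
    calc (1 : ℝ) ≤ x * n := by
          rw [div_le_iff₀ hx0] at hn3'
          linarith
      _ = x * n ^ 3 * (1 / (n : ℝ) ^ 2) := by field_simp
      _ ≤ _ := mul_le_mul hxU h1 (by positivity) (by positivity)
  set Q : ℕ := ⌈U.card * τ⌉₊ with hQ
  have hQ1 : U.card * τ ≤ (Q : ℝ) := Nat.le_ceil _
  have hQ2 : (Q : ℝ) ≤ 2 * τ * U.card := by
    have := (Nat.ceil_lt_add_one (a := U.card * τ) (by positivity)).le
    rw [← hQ] at this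
    linarith
  have hD : 0 < x ^ (a * b * c) / 2 * (n : ℝ) ^ (a + b + c) / n ^ 3 := by positivity
  have h1 := hcont U _ _ τ Q hD hτ0 hττ hQ1 hQ2 hsp
  refine h1.mono (fun I hI => ⟨hI.1, ind_of_free r q z hI.2⟩) ?_ le_rfl
  refine (cost (M := U.card) rfl hτ0 hτ1 hζ0 hQ2).trans ?_
  refine Real.exp_le_exp.2 ?_
  have hU3 : (U.card : ℝ) ≤ (n : ℝ) ^ 3 := by
    have := card_le_card hU
    rw [card_range] at this
    exact_mod_cast this
  refine mul_le_mul_of_nonneg_left ?_ (by positivity)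
  calc (U.card : ℝ) * τ ^ (1 - ζ) ≤ (n : ℝ) ^ 3 * τ ^ (1 - ζ) :=
        mul_le_mul_of_nonneg_right hU3 (by positivity)
    _ = (n : ℝ) ^ (2 - 1 / (2 * (s : ℝ))) := by
        rw [hτ, ← Real.rpow_mul hn0'.le, ← Real.rpow_natCast, ← Real.rpow_add hn0']
        congr 1
        rw [hζ]
        field_simp
        push_cast
        ring

/-- **Containers** -/
theorem cover (h : LS r q z) (hs : 1 ≤ s) (x : ℝ) (hx0 : 0 < x) (hx1 : x ≤ 1) (η : ℝ)
    (hη : 0 < η) : ∃ n₀ : ℕ, ∀ n : ℕ, n₀ ≤ n →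
      Cov (fun I => I ⊆ range (n ^ 3) ∧ Free r q z n I) (range (n ^ 3))
        (Real.exp (η * (n : ℝ) ^ 2)) (x * n ^ 3) := by
  classical
  obtain ⟨δ, hδ0, hδ1, C, hC, n₀, hstep⟩ := one_step r q z h hs x hx0 hx1
  have hs1 : (1 : ℝ) ≤ s := by exact_mod_cast hs
  have hs0 : (0 : ℝ) < s := by linarith
  obtain ⟨t, ht⟩ : ∃ t : ℕ, (1 - δ) ^ t ≤ x := by
    obtain ⟨t, ht⟩ := exists_pow_lt_of_lt_one hx0 (by linarith : 1 - δ < 1)
    exact ⟨t, ht.le⟩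
  have hP : ∀ n : ℕ, n₀ ≤ n → ∀ t : ℕ,
      Cov (fun I => I ⊆ range (n ^ 3) ∧ Free r q z n I) (range (n ^ 3))
        (Real.exp (C * (n : ℝ) ^ (2 - 1 / (2 * (s : ℝ)))) ^ t)
        (max (x * n ^ 3) ((1 - δ) ^ t * n ^ 3)) := by
    intro n hn t
    induction t with
    | zero =>
      rw [pow_zero, pow_zero, one_mul]
      refine Cov.one (C := range (n ^ 3)) (Subset.refl _) ?_ (fun I hI => hI.1)
      rw [card_range]
      push_cast
      exact le_max_right _ _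
    | succ t ih =>
      rw [pow_succ]
      refine ih.comp (Real.exp_nonneg _) fun V hV hVc => ?_
      by_cases hVx : (V.card : ℝ) ≤ x * n ^ 3
      · refine (Cov.mono_set ((Cov.one (P := fun I => I ⊆ V) (Subset.refl V) hVx
          (fun I hI => hI)).mono (P' := fun I => I ⊆ V ∧ I ⊆ range (n ^ 3) ∧ Free r q z n I)
          (fun I hI => hI.1) ?_ (le_max_left _ _)) hV)
        exact Real.one_le_exp (by positivity)
      · push Not at hVx
        have h1 := hstep n hn V hV hVx.le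
        have h2 : (V.card : ℝ) ≤ (1 - δ) ^ t * n ^ 3 := by
          rcases le_max_iff.1 hVc with h | h
          · linarith
          · exact h
        refine Cov.mono_set (h1.mono (fun I hI => ⟨hI.1, hI.2.2⟩) le_rfl ?_) hV
        refine le_trans ?_ (le_max_right _ _)
        calc (1 - δ) * V.card ≤ (1 - δ) * ((1 - δ) ^ t * n ^ 3) :=
              mul_le_mul_of_nonneg_left h2 (by linarith)
          _ = _ := by ring
  -- the number of containers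
  have hlim : Tendsto (fun n : ℕ => (n : ℝ) ^ (1 / (2 * (s : ℝ)))) atTop atTop :=
    (tendsto_rpow_atTop (by positivity)).comp tendsto_natCast_atTop_atTop
  obtain ⟨n₁, hn₁⟩ := eventually_atTop.1 (hlim.eventually_ge_atTop (t * C / η))
  refine ⟨max 1 (max n₀ n₁), fun n hn => ?_⟩
  have hn1 : (1 : ℝ) ≤ n := by exact_mod_cast (le_max_left _ _).trans hn
  have hn0 : (0 : ℝ) < n := by linarith
  have h1 := hP n (((le_max_left _ _).trans (le_max_right _ _)).trans hn) t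
  refine h1.mono (fun I hI => hI) ?_ ?_
  · rw [← Real.exp_nat_mul]
    refine Real.exp_le_exp.2 ?_
    have h2 := hn₁ n (((le_max_right _ _).trans (le_max_right _ _)).trans hn)
    rw [div_le_iff₀ hη] at h2
    have h3 : (n : ℝ) ^ (2 : ℕ) = (n : ℝ) ^ (1 / (2 * (s : ℝ))) * (n : ℝ) ^ (2 - 1 / (2 * (s : ℝ))) := by
      rw [← Real.rpow_add hn0, ← Real.rpow_natCast]
      congr 1
      push_cast
      ring
    rw [h3]
    calc (t : ℝ) * (C * (n : ℝ) ^ (2 - 1 / (2 * (s : ℝ)))) =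
          (t * C) * (n : ℝ) ^ (2 - 1 / (2 * (s : ℝ))) := by ring
      _ ≤ ((n : ℝ) ^ (1 / (2 * (s : ℝ))) * η) * (n : ℝ) ^ (2 - 1 / (2 * (s : ℝ))) :=
          mul_le_mul_of_nonneg_right h2 (by positivity)
      _ = _ := by ring
  · refine max_le le_rfl ?_
    exact mul_le_mul_of_nonneg_right ht (by positivity)

end

end Pool.Agent.T2H17.BL
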