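import Pool.Agent.T2H17.BL.Cover
import Pool.Agent.T2H17.BL.ContE

/-!
# Containers of size `n ^ (3 - β)` for the sets without a copy of a locally sparse configuration
-/

set_option autoImplicit false

open Finset Filter
open Pool.Agent.Y940.CT (Spread deg Ind Cov cost)

namespace Pool.Agent.T2H17.BL

section

variable {s a b c : ℕ} (r : Fin s → Fin a) (q : Fin s → Fin b) (z : Fin s → Fin c)

theorem one_stepE (h : LS r q z) (hs : 1 ≤ s) :
    ∃ (C₁ : ℝ) (M : ℕ), 1 ≤ C₁ ∧ 1 ≤ M ∧ ∀ n : ℕ, 1 ≤ n → ∀ x : ℝ, 0 < x → x ≤ 1 →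
      C₁ ≤ x ^ M * n → ∀ U : Finset ℕ, U ⊆ range (n ^ 3) → x * n ^ 3 ≤ U.card →
      Cov (fun I => I ⊆ U ∧ Free r q z n I) U
        (Real.exp (C₁ * (n : ℝ) ^ (2 - 1 / (2 * (s : ℝ))))) ((1 - x ^ M / C₁) * U.card) := by
  classical
  have hs1 : (1 : ℝ) ≤ s := by exact_mod_cast hs
  have hs0 : (0 : ℝ) < s := by linarith
  obtain ⟨c₀, m, hc₀, hm, hcont⟩ := containersE s hs
  set ζ : ℝ := 1 / (2 * ((s : ℝ) + 1)) with hζ
  have hζ0 : 0 < ζ := by positivity
  set G : ℝ := c₀ * (2 * (s : ℝ) ^ s) ^ m with hG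
  have hG0 : 0 < G := by positivity
  set C₁ : ℝ := G + 2 * ((a : ℝ) ^ 2 + b ^ 2 + c ^ 2) + ((s - 1 : ℕ) : ℝ) * (2 / ζ + 1) + 1 with hC₁
  have hA0 : (0 : ℝ) ≤ 2 * ((a : ℝ) ^ 2 + b ^ 2 + c ^ 2) := by positivity
  have hB0 : 0 ≤ ((s - 1 : ℕ) : ℝ) * (2 / ζ + 1) := by positivity
  have hC₁0 : 0 < C₁ := by linarith
  refine ⟨C₁, a * b * c * m + 1, by linarith, by omega, ?_⟩
  intro n hn x hx0 hx1 hxn U hU hxU
  have hn1' : (1 : ℝ) ≤ n := by exact_mod_cast hn
  have hn0' : (0 : ℝ) < n := by linarith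
  have hxp : 0 < x ^ (a * b * c) := pow_pos hx0 _
  have hxp1 : x ^ (a * b * c) ≤ 1 := pow_le_one₀ hx0.le hx1
  have hK : 1 ≤ 2 * (s : ℝ) ^ s / x ^ (a * b * c) := by
    rw [le_div_iff₀ hxp, one_mul]
    have := one_le_pow₀ hs1 (n := s)
    linarith
  have hle1 : x ^ (a * b * c * m + 1) ≤ x ^ (a * b * c * m) :=
    pow_le_pow_of_le_one hx0.le hx1 (by omega)
  have hle2 : x ^ (a * b * c * m + 1) ≤ x ^ (a * b * c) := by
    refine pow_le_pow_of_le_one hx0.le hx1 ?_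
    have : a * b * c * 1 ≤ a * b * c * m := Nat.mul_le_mul_left _ hm
    omega
  have hle3 : x ^ (a * b * c * m + 1) ≤ x := by
    calc x ^ (a * b * c * m + 1) ≤ x ^ 1 := pow_le_pow_of_le_one hx0.le hx1 (by omega)
      _ = x := pow_one x
  have hKm : 1 / (c₀ * (2 * (s : ℝ) ^ s / x ^ (a * b * c)) ^ m) = x ^ (a * b * c * m) / G := by
    rw [div_pow, hG, ← pow_mul]
    field_simp
  have hx3 : 1 ≤ x * n := by
    have h1 : x ^ (a * b * c * m + 1) * n ≤ x * n := mul_le_mul_of_nonneg_right hle3 hn0'.le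
    linarith
  have hbig : (a : ℝ) ^ 2 + b ^ 2 + c ^ 2 ≤ x ^ (a * b * c) / 2 * n := by
    have h1 : x ^ (a * b * c * m + 1) * n ≤ x ^ (a * b * c) * n :=
      mul_le_mul_of_nonneg_right hle2 hn0'.le
    linarith
  set τ : ℝ := (n : ℝ) ^ (-(1 + 1 / (s : ℝ))) with hτ
  have hτ0 : 0 < τ := Real.rpow_pos_of_pos hn0' _
  have hτn : τ ≤ (n : ℝ)⁻¹ := by
    rw [hτ, ← Real.rpow_neg_one]
    refine Real.rpow_le_rpow_of_exponent_le hn1' ?_
    have : (0 : ℝ) < 1 / s := by positivity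
    linarith
  have hττ : τ ≤ 1 / (c₀ * (2 * (s : ℝ) ^ s / x ^ (a * b * c)) ^ m) := by
    refine hτn.trans ?_
    rw [hKm, inv_eq_one_div, div_le_div_iff₀ hn0' hG0, one_mul]
    have h1 : x ^ (a * b * c * m + 1) * n ≤ x ^ (a * b * c * m) * n :=
      mul_le_mul_of_nonneg_right hle1 hn0'.le
    linarith
  have hτ1 : τ ≤ 1 := hτn.trans (inv_le_one_of_one_le₀ hn1')
  have hτe : ∀ e : ℕ, 2 ≤ e → e ≤ s → 1 ≤ τ ^ (e - 1) * (n : ℝ) ^ e := by
    intro e he hes
    have h1 : τ ^ (e - 1) * (n : ℝ) ^ e = (n : ℝ) ^ (-(1 + 1 / (s : ℝ)) * ((e - 1 : ℕ) : ℝ) + e) := by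
      rw [Real.rpow_add hn0', Real.rpow_mul hn0'.le, Real.rpow_natCast, Real.rpow_natCast]
    rw [h1]
    refine Real.one_le_rpow hn1' ?_
    have h2 : ((e - 1 : ℕ) : ℝ) = e - 1 := by
      rw [Nat.cast_sub (by omega), Nat.cast_one]
    rw [h2]
    have h3 : (e : ℝ) ≤ s := by exact_mod_cast hes
    have h4 : 1 / (s : ℝ) * ((e : ℝ) - 1) ≤ 1 := by
      rw [one_div, inv_mul_le_iff₀ hs0]
      linarith
    have h5 : -(1 + 1 / (s : ℝ)) * ((e : ℝ) - 1) + e = 1 - 1 / (s : ℝ) * ((e : ℝ) - 1) := by ring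
    rw [h5]
    linarith
  have hsp := spread r q z hn h hs U hU x hx0 hxU hbig τ hτ0 hτe
  have hUτ : 1 ≤ U.card * τ := by
    have h1 : (n : ℝ) ^ (-(2 : ℝ)) ≤ τ := by
      rw [hτ]
      refine Real.rpow_le_rpow_of_exponent_le hn1' ?_
      have : 1 / (s : ℝ) ≤ 1 := by
        rw [div_le_one hs0]; exact hs1
      linarith
    have h2 : (n : ℝ) ^ (-(2 : ℝ)) = 1 / (n : ℝ) ^ 2 := by
      rw [Real.rpow_neg hn0'.le, ← Real.rpow_natCast, one_div]
      norm_num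
    rw [h2] at h1
    calc (1 : ℝ) ≤ x * n := hx3
      _ = x * n ^ 3 * (1 / (n : ℝ) ^ 2) := by field_simp
      _ ≤ _ := mul_le_mul hxU h1 (by positivity) (by positivity)
  set Q : ℕ := ⌈U.card * τ⌉₊ with hQ
  have hQ1 : U.card * τ ≤ (Q : ℝ) := Nat.le_ceil _
  have hQ2 : (Q : ℝ) ≤ 2 * τ * U.card := by
    have := (Nat.ceil_lt_add_one (a := U.card * τ) (by positivity)).le
    rw [← hQ] at this
    linarith
  have hD : 0 < x ^ (a * b * c) / 2 * (n : ℝ) ^ (a + b + c) / n ^ 3 := by positivity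
  have h1 := hcont _ hK U _ _ τ Q hD hτ0 hττ hQ1 hQ2 hsp
  refine h1.mono (fun I hI => ⟨hI.1, ind_of_free r q z hI.2⟩) ?_ ?_
  swap
  · refine mul_le_mul_of_nonneg_right ?_ (Nat.cast_nonneg _)
    rw [hKm]
    have h2 : x ^ (a * b * c * m + 1) / C₁ ≤ x ^ (a * b * c * m) / G := by
      refine div_le_div₀ (by positivity) hle1 hG0 ?_
      linarith
    linarith
  refine (cost (M := U.card) rfl hτ0 hτ1 hζ0 hQ2).trans ?_
  refine Real.exp_le_exp.2 ?_
  have hU3 : (U.card : ℝ) ≤ (n : ℝ) ^ 3 := by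
    have := card_le_card hU
    rw [card_range] at this
    exact_mod_cast this
  refine mul_le_mul (by linarith) ?_ (by positivity) hC₁0.le
  calc (U.card : ℝ) * τ ^ (1 - ζ) ≤ (n : ℝ) ^ 3 * τ ^ (1 - ζ) :=
        mul_le_mul_of_nonneg_right hU3 (by positivity)
    _ = (n : ℝ) ^ (2 - 1 / (2 * (s : ℝ))) := by
        rw [hτ, ← Real.rpow_mul hn0'.le, ← Real.rpow_natCast, ← Real.rpow_add hn0']
        congr 1
        rw [hζ]
        field_simp
        push_cast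
        ring

/-- **Containers** of size `x n ^ 3`, where `x` may tend to zero -/
theorem coverE (h : LS r q z) (hs : 1 ≤ s) :
    ∃ (C₁ : ℝ) (M : ℕ), 1 ≤ C₁ ∧ 1 ≤ M ∧ ∀ n : ℕ, 1 ≤ n → ∀ x : ℝ, 0 < x → x ≤ 1 →
      C₁ ≤ x ^ M * n → ∀ t : ℕ, (1 - x ^ M / C₁) ^ t ≤ x →
      Cov (fun I => I ⊆ range (n ^ 3) ∧ Free r q z n I) (range (n ^ 3))
        (Real.exp (t * (C₁ * (n : ℝ) ^ (2 - 1 / (2 * (s : ℝ)))))) (x * n ^ 3) := by
  classical
  obtain ⟨C₁, M, hC₁, hM, hstep⟩ := one_stepE r q z h hs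
  refine ⟨C₁, M, hC₁, hM, ?_⟩
  intro n hn x hx0 hx1 hxn t₀ ht₀
  have hC₁0 : 0 < C₁ := by linarith
  set δ : ℝ := x ^ M / C₁ with hδ
  have hδ0 : 0 < δ := by positivity
  have hδ1 : δ ≤ 1 := by
    rw [hδ, div_le_one hC₁0]
    exact (pow_le_one₀ hx0.le hx1).trans hC₁
  have hP : ∀ t : ℕ,
      Cov (fun I => I ⊆ range (n ^ 3) ∧ Free r q z n I) (range (n ^ 3))
        (Real.exp (C₁ * (n : ℝ) ^ (2 - 1 / (2 * (s : ℝ)))) ^ t)
        (max (x * n ^ 3) ((1 - δ) ^ t * n ^ 3)) := by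
    intro t
    induction t with
    | zero =>
      rw [pow_zero, pow_zero, one_mul]
      refine Cov.one (C := range (n ^ 3)) (Subset.refl _) ?_ (fun I hI => hI.1)
      rw [card_range]
      push_cast
      exact le_max_right _ _
    | succ t ih =>
      rw [pow_succ]
      refine ih.comp (Real.exp_nonneg _) fun V hV hVc => ?_
      by_cases hVx : (V.card : ℝ) ≤ x * n ^ 3
      · refine (Cov.mono_set ((Cov.one (P := fun I => I ⊆ V) (Subset.refl V) hVx
          (fun I hI => hI)).mono (P' := fun I => I ⊆ V ∧ I ⊆ range (n ^ 3) ∧ Free r q z n I)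
          (fun I hI => hI.1) ?_ (le_max_left _ _)) hV)
        exact Real.one_le_exp (by positivity)
      · push Not at hVx
        have h1 := hstep n hn x hx0 hx1 hxn V hV hVx.le
        have h2 : (V.card : ℝ) ≤ (1 - δ) ^ t * n ^ 3 := by
          rcases le_max_iff.1 hVc with h | h
          · linarith
          · exact h
        refine Cov.mono_set (h1.mono (fun I hI => ⟨hI.1, hI.2.2⟩) le_rfl ?_) hV
        refine le_trans ?_ (le_max_right _ _)
        calc (1 - δ) * V.card ≤ (1 - δ) * ((1 - δ) ^ t * n ^ 3) :=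
              mul_le_mul_of_nonneg_left h2 (by linarith)
          _ = _ := by ring
  refine (hP t₀).mono (fun I hI => hI) ?_ ?_
  · rw [← Real.exp_nat_mul]
  · refine max_le le_rfl ?_
    exact mul_le_mul_of_nonneg_right ht₀ (by positivity)

/-- **Containers** of size `n ^ (3 - β)` -/
theorem coverP (h : LS r q z) (hs : 1 ≤ s) :
    ∃ β : ℝ, 0 < β ∧ ∃ θ : ℝ, 0 < θ ∧ ∃ n₀ : ℕ, ∀ n : ℕ, n₀ ≤ n →
      Cov (fun I => I ⊆ range (n ^ 3) ∧ Free r q z n I) (range (n ^ 3))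
        (Real.exp ((n : ℝ) ^ (2 - θ))) ((n : ℝ) ^ (3 - β)) := by
  classical
  obtain ⟨C₁, M, hC₁, hM, hcov⟩ := coverE r q z h hs
  have hs1 : (1 : ℝ) ≤ s := by exact_mod_cast hs
  have hs0 : (0 : ℝ) < s := by linarith
  have hM1 : (1 : ℝ) ≤ M := by exact_mod_cast hM
  have hM0 : (0 : ℝ) < M := by linarith
  have hC0 : 0 < C₁ := by linarith
  set β : ℝ := 1 / (16 * s * M) with hβ
  have hβ0 : 0 < β := by positivity
  have hβM : β * M = 1 / (16 * s) := by
    rw [hβ]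
    field_simp
  have hβM2 : β * M ≤ 1 / 16 := by
    rw [hβM]
    exact one_div_le_one_div_of_le (by norm_num) (by linarith)
  refine ⟨β, hβ0, 1 / (8 * s), by positivity, ?_⟩
  -- the conditions for large `n`
  have hlim1 : Tendsto (fun n : ℕ => (n : ℝ) ^ (1 / 2 : ℝ)) atTop atTop :=
    (tendsto_rpow_atTop (by norm_num)).comp tendsto_natCast_atTop_atTop
  have hlim2 : Tendsto (fun n : ℕ => (n : ℝ) ^ (1 / (16 * (s : ℝ)))) atTop atTop :=
    (tendsto_rpow_atTop (by positivity)).comp tendsto_natCast_atTop_atTop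
  obtain ⟨n₁, hn₁⟩ := eventually_atTop.1 (hlim1.eventually_ge_atTop C₁)
  obtain ⟨n₂, hn₂⟩ := eventually_atTop.1 (hlim2.eventually_ge_atTop
    (C₁ * (32 * s * C₁ + 1)))
  refine ⟨max 1 (max n₁ n₂), fun n hn => ?_⟩
  have hn1 : 1 ≤ n := (le_max_left _ _).trans hn
  have hn1' : (1 : ℝ) ≤ n := by exact_mod_cast hn1
  have hn0' : (0 : ℝ) < n := by linarith
  have h1 := hn₁ n (((le_max_left _ _).trans (le_max_right _ _)).trans hn)
  have h2 := hn₂ n (((le_max_right _ _).trans (le_max_right _ _)).trans hn)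
  set x : ℝ := (n : ℝ) ^ (-β) with hx
  have hx0 : 0 < x := Real.rpow_pos_of_pos hn0' _
  have hx1 : x ≤ 1 := Real.rpow_le_one_of_one_le_of_nonpos hn1' (by linarith)
  have hxM : x ^ M = (n : ℝ) ^ (-(β * M)) := by
    rw [hx, ← Real.rpow_natCast, ← Real.rpow_mul hn0'.le]
    congr 1
    ring
  have hxn : C₁ ≤ x ^ M * n := by
    refine h1.trans ?_
    rw [hxM]
    nth_rewrite 3 [← Real.rpow_one (n : ℝ)]
    rw [← Real.rpow_add hn0']
    exact Real.rpow_le_rpow_of_exponent_le hn1' (by linarith)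
  set δ : ℝ := x ^ M / C₁ with hδ
  have hδ0 : 0 < δ := by positivity
  set t : ℕ := ⌈(1 / δ) * Real.log (1 / x)⌉₊ with ht
  have hlogx : 0 ≤ Real.log (1 / x) := Real.log_nonneg (by rw [le_div_iff₀ hx0]; linarith)
  have ht1 : (1 / δ) * Real.log (1 / x) ≤ t := Nat.le_ceil _
  have ht2 : (t : ℝ) ≤ (1 / δ) * Real.log (1 / x) + 1 :=
    (Nat.ceil_lt_add_one (by positivity)).le
  have hδ1 : δ ≤ 1 := by
    rw [hδ, div_le_one hC0]
    exact (pow_le_one₀ hx0.le hx1).trans hC₁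
  have hpow : (1 - δ) ^ t ≤ x := by
    have h3 : (1 - δ) ^ t ≤ Real.exp (-δ) ^ t := by
      refine pow_le_pow_left₀ (by linarith) ?_ _
      have := Real.add_one_le_exp (-δ)
      linarith
    refine h3.trans ?_
    rw [← Real.exp_nat_mul]
    have h4 : (t : ℝ) * -δ ≤ Real.log x := by
      have h5 : Real.log (1 / x) = - Real.log x := by rw [one_div, Real.log_inv]
      rw [h5] at ht1
      have h6 : (1 / δ * -Real.log x) * δ ≤ t * δ := mul_le_mul_of_nonneg_right ht1 hδ0.le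
      have h7 : (1 / δ * -Real.log x) * δ = - Real.log x := by field_simp
      linarith
    calc Real.exp (t * -δ) ≤ Real.exp (Real.log x) := Real.exp_le_exp.2 h4
      _ = x := Real.exp_log hx0
  refine (hcov n hn1 x hx0 hx1 hxn t hpow).mono (fun I hI => hI) ?_ (le_of_eq ?_)
  · refine Real.exp_le_exp.2 ?_
    -- bound of `t`
    have h3 : (t : ℝ) ≤ (32 * s * C₁ + 1) * (n : ℝ) ^ (1 / (8 * (s : ℝ))) := by
      have h4 : 1 / δ = C₁ * (n : ℝ) ^ (β * M) := by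
        rw [hδ, hxM, one_div_div, Real.rpow_neg hn0'.le, div_inv_eq_mul]
      have h5 : Real.log (1 / x) ≤ 32 * s * (n : ℝ) ^ (1 / (16 * (s : ℝ))) := by
        have h6 : Real.log (1 / x) = β * Real.log n := by
          rw [one_div, Real.log_inv, hx, Real.log_rpow hn0']
          ring
        rw [h6]
        have h7 : Real.log n ≤ (n : ℝ) ^ (1 / (16 * (s : ℝ))) / (1 / (16 * (s : ℝ))) :=
          Real.log_le_rpow_div hn0'.le (by positivity)
        have h8 : (n : ℝ) ^ (1 / (16 * (s : ℝ))) / (1 / (16 * (s : ℝ))) =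
            16 * s * (n : ℝ) ^ (1 / (16 * (s : ℝ))) := by
          field_simp
        rw [h8] at h7
        have hβ1 : β ≤ 1 := by
          rw [hβ, div_le_one (by positivity)]
          have h9 : (1 : ℝ) ≤ s * M := one_le_mul_of_one_le_of_one_le hs1 hM1
          linarith
        have hlogn : 0 ≤ Real.log n := Real.log_nonneg hn1'
        calc β * Real.log n ≤ 1 * Real.log n := mul_le_mul_of_nonneg_right hβ1 hlogn
          _ ≤ 16 * s * (n : ℝ) ^ (1 / (16 * (s : ℝ))) := by linarith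
          _ ≤ 32 * s * (n : ℝ) ^ (1 / (16 * (s : ℝ))) :=
            mul_le_mul_of_nonneg_right (by linarith) (by positivity)
      rw [h4, hβM] at ht2
      have h9 : (n : ℝ) ^ (1 / (8 * (s : ℝ))) =
          (n : ℝ) ^ (1 / (16 * (s : ℝ))) * (n : ℝ) ^ (1 / (16 * (s : ℝ))) := by
        rw [← Real.rpow_add hn0']
        congr 1
        field_simp
        norm_num
      rw [h9]
      have h10 : 1 ≤ (n : ℝ) ^ (1 / (16 * (s : ℝ))) := Real.one_le_rpow hn1' (by positivity)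
      calc (t : ℝ) ≤ C₁ * (n : ℝ) ^ (1 / (16 * (s : ℝ))) * Real.log (1 / x) + 1 := ht2
        _ ≤ C₁ * (n : ℝ) ^ (1 / (16 * (s : ℝ))) * (32 * s * (n : ℝ) ^ (1 / (16 * (s : ℝ)))) +
            1 * ((n : ℝ) ^ (1 / (16 * (s : ℝ))) * (n : ℝ) ^ (1 / (16 * (s : ℝ)))) := by
            refine add_le_add (mul_le_mul_of_nonneg_left h5 (by positivity)) ?_
            rw [one_mul]
            exact one_le_mul_of_one_le_of_one_le h10 h10
        _ = _ := by ring
    calc (t : ℝ) * (C₁ * (n : ℝ) ^ (2 - 1 / (2 * (s : ℝ)))) ≤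
        ((32 * s * C₁ + 1) * (n : ℝ) ^ (1 / (8 * (s : ℝ)))) *
          (C₁ * (n : ℝ) ^ (2 - 1 / (2 * (s : ℝ)))) := mul_le_mul_of_nonneg_right h3 (by positivity)
      _ = (C₁ * (32 * s * C₁ + 1)) *
          ((n : ℝ) ^ (1 / (8 * (s : ℝ))) *
            (n : ℝ) ^ (2 - 1 / (2 * (s : ℝ)))) := by ring
      _ ≤ (n : ℝ) ^ (1 / (16 * (s : ℝ))) *
          ((n : ℝ) ^ (1 / (8 * (s : ℝ))) *
            (n : ℝ) ^ (2 - 1 / (2 * (s : ℝ)))) := mul_le_mul_of_nonneg_right h2 (by positivity)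
      _ = (n : ℝ) ^ (1 / (16 * (s : ℝ)) + ((1 / (8 * (s : ℝ))) + (2 - 1 / (2 * (s : ℝ))))) := by
          rw [← Real.rpow_add hn0', ← Real.rpow_add hn0']
      _ ≤ (n : ℝ) ^ (2 - 1 / (8 * (s : ℝ))) := by
          refine Real.rpow_le_rpow_of_exponent_le hn1' ?_
          have h11 : 1 / (16 * (s : ℝ)) + ((1 / (8 * (s : ℝ))) + (2 - 1 / (2 * (s : ℝ)))) = 2 - 5 / (16 * (s : ℝ)) := by
            field_simp
            ring
          rw [h11]
          have h12 : 1 / (8 * (s : ℝ)) = 2 / (16 * (s : ℝ)) := by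
            field_simp
            norm_num
          have h13 : 2 / (16 * (s : ℝ)) ≤ 5 / (16 * (s : ℝ)) :=
            div_le_div_of_nonneg_right (by norm_num) (by positivity)
          linarith
  · rw [hx, ← Real.rpow_natCast, ← Real.rpow_add hn0']
    congr 1
    push_cast
    ring

end

end Pool.Agent.T2H17.BL
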