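import Pool.Agent.T2H17.BL.Breg
import Pool.Agent.Helper886.HCube.Perm

/-!
# Counting the extensions of Latin rectangles
-/

set_option autoImplicit false

open Finset
open Equiv (Perm)

namespace Pool.Agent.T2H17.BL

/-- pairwise discordant permutations -/
def Disc {ι : Type} {n : ℕ} (σ : ι → Perm (Fin n)) : Prop := ∀ i j, i ≠ j → ∀ x, σ i x ≠ σ j x

/-- the possible next rows -/
noncomputable def nxt {ι : Type} {n : ℕ} (σ : ι → Perm (Fin n)) : Finset (Perm (Fin n)) := by
  classical
  exact univ.filter fun τ => ∀ i x, σ i x ≠ τ x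

theorem mem_nxt {ι : Type} {n : ℕ} {σ : ι → Perm (Fin n)} {τ : Perm (Fin n)} :
    τ ∈ nxt σ ↔ ∀ i x, σ i x ≠ τ x := by
  classical
  unfold nxt
  simp

/-- `log (d!) / d` -/
noncomputable def gg (d : ℕ) : ℝ := Real.log (d.factorial : ℝ) / d

section

variable {ι : Type} [Fintype ι] {n : ℕ} {σ : ι → Perm (Fin n)}

theorem row_sum (h : Disc σ) (x : Fin n) [DecidablePred fun y => ∀ i, σ i x ≠ y] :
    (univ.filter fun y => ∀ i, σ i x ≠ y).card = n - Fintype.card ι := by
  classical
  have h1 : (univ.filter fun y => ∀ i, σ i x ≠ y) = (univ.image fun i => σ i x)ᶜ := by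
    ext y
    simp
  rw [h1, card_compl, Fintype.card_fin, card_image_of_injective, card_univ]
  intro i j hij
  by_contra hne
  exact h i j hne x hij

theorem col_sum (h : Disc σ) (y : Fin n) [DecidablePred fun x => ∀ i, σ i x ≠ y] :
    (univ.filter fun x => ∀ i, σ i x ≠ y).card = n - Fintype.card ι := by
  classical
  have h1 : (univ.filter fun x => ∀ i, σ i x ≠ y) = (univ.image fun i => (σ i).symm y)ᶜ := by
    ext x
    simp only [mem_filter, mem_univ, true_and, mem_compl, mem_image, not_exists]
    refine forall_congr' fun i => not_congr ?_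
    rw [Equiv.symm_apply_eq]
    exact eq_comm
  rw [h1, card_compl, Fintype.card_fin, card_image_of_injective, card_univ]
  intro i j hij
  by_contra hne
  dsimp only at hij
  have h2 := h i j hne ((σ i).symm y)
  rw [Equiv.apply_symm_apply] at h2
  apply h2
  rw [hij, Equiv.apply_symm_apply]

theorem nxt_ub (h : Disc σ) : ((nxt σ).card : ℝ) ≤ Real.exp (n * gg (n - Fintype.card ι)) := by
  classical
  have h1 := bregman (fun x y : Fin n => ∀ i, σ i x ≠ y)
  simp_rw [row_sum h] at h1
  rw [sum_const, card_univ, Fintype.card_fin, nsmul_eq_mul] at h1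
  have h2 : nxt σ = univ.filter fun τ : Fin n ≃ Fin n => ∀ x, ∀ i, σ i x ≠ τ x := by
    ext τ
    rw [mem_nxt, mem_filter]
    constructor
    · exact fun h => ⟨mem_univ _, fun x i => h i x⟩
    · exact fun h i x => h.2 x i
  rw [h2]
  unfold gg
  convert h1

theorem nxt_lb (h : Disc σ) (hk : Fintype.card ι < n) :
    ((n - Fintype.card ι : ℕ) : ℝ) ^ n * Real.exp (-(n : ℝ)) ≤ (nxt σ).card := by
  classical
  set d : ℕ := n - Fintype.card ι with hd
  have hd0 : 0 < d := by omega
  have hd0' : (0 : ℝ) < d := by exact_mod_cast hd0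
  set A : Fin n → Fin n → ℝ := fun x y => if ∀ i, σ i x ≠ y then 1 / (d : ℝ) else 0 with hA
  have h1 := Pool.Agent.Helper886.HCube.perm_lower A ?_ ?_ ?_
  · have h2 : ∀ τ : Perm (Fin n), ∏ x, A x (τ x) = if τ ∈ nxt σ then 1 / (d : ℝ) ^ n else 0 := by
      intro τ
      split_ifs with h3
      · rw [mem_nxt] at h3
        have h4 : ∀ x ∈ (univ : Finset (Fin n)), A x (τ x) = 1 / (d : ℝ) := by
          intro x _
          rw [hA]
          exact if_pos fun i => h3 i x
        rw [prod_congr rfl h4, prod_const, card_univ, Fintype.card_fin, one_div_pow]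
      · rw [mem_nxt] at h3
        push Not at h3
        obtain ⟨i, x, h4⟩ := h3
        refine prod_eq_zero (mem_univ x) ?_
        rw [hA]
        exact if_neg fun h5 => h5 i h4
    simp_rw [h2] at h1
    rw [← sum_filter, filter_mem_eq_inter, univ_inter, sum_const, nsmul_eq_mul, mul_one_div,
      le_div_iff₀ (by positivity)] at h1
    linarith
  · intro x y
    rw [hA]
    dsimp only
    split_ifs <;> positivity
  · intro x
    rw [hA]
    dsimp only
    rw [← sum_filter, sum_const, row_sum h, nsmul_eq_mul, ← hd]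
    field_simp
  · intro y
    rw [hA]
    dsimp only
    rw [← sum_filter, sum_const, col_sum h, nsmul_eq_mul, ← hd]
    field_simp

/-- the extensions by `κ` rows -/
noncomputable def Ex (σ : ι → Perm (Fin n)) (κ : Type) [Fintype κ] : Finset (κ → Perm (Fin n)) := by
  classical
  exact univ.filter fun τ => Disc (Sum.elim σ τ)

omit [Fintype ι] in
theorem mem_Ex {κ : Type} [Fintype κ] {τ : κ → Perm (Fin n)} :
    τ ∈ Ex σ κ ↔ Disc (Sum.elim σ τ) := by
  classical
  unfold Ex
  simp

theorem Disc.comp {κ κ' : Type} {σ : κ → Perm (Fin n)} (h : Disc σ) {f : κ' → κ}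
    (hf : Function.Injective f) : Disc (fun i => σ (f i)) :=
  fun i j hij => h (f i) (f j) fun h1 => hij (hf h1)

theorem card_Ex_congr {κ κ' : Type} [Fintype κ] [Fintype κ'] (e : κ ≃ κ') :
    (Ex σ κ).card = (Ex σ κ').card := by
  classical
  refine card_bij (fun τ _ => fun i => τ (e.symm i)) ?_ ?_ ?_
  · intro τ hτ
    rw [mem_Ex] at hτ ⊢
    have h1 := hτ.comp (f := Sum.map id e.symm) (Function.Injective.sumMap Function.injective_id
      e.symm.injective)
    convert h1 using 1
    funext i
    rcases i with i | i <;> rfl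
  · intro τ _ τ' _ h1
    funext i
    have h2 := congrFun h1 (e i)
    simpa using h2
  · intro τ hτ
    refine ⟨fun i => τ (e i), ?_, ?_⟩
    · rw [mem_Ex] at hτ ⊢
      have h1 := hτ.comp (f := Sum.map id e) (Function.Injective.sumMap Function.injective_id
        e.injective)
      convert h1 using 1
      funext i
      rcases i with i | i <;> rfl
    · funext i
      simp

omit [Fintype ι] in
theorem disc_snoc {j : ℕ} {τ : Fin (j + 1) → Perm (Fin n)} :
    Disc (Sum.elim σ τ) ↔ Disc (Sum.elim σ (fun i : Fin j => τ i.castSucc)) ∧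
      τ (Fin.last j) ∈ nxt (Sum.elim σ (fun i : Fin j => τ i.castSucc)) := by
  constructor
  · intro h
    refine ⟨?_, ?_⟩
    · have h1 := h.comp (f := Sum.map id Fin.castSucc) (Function.Injective.sumMap
        Function.injective_id (Fin.castSucc_injective j))
      convert h1 using 1
      funext i
      rcases i with i | i <;> rfl
    · rw [mem_nxt]
      rintro (i | i) x
      · exact h (Sum.inl i) (Sum.inr (Fin.last j)) (by simp) x
      · exact h (Sum.inr i.castSucc) (Sum.inr (Fin.last j))
          (by simp) x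
  · rintro ⟨h1, h2⟩
    rw [mem_nxt] at h2
    rintro (i | i) (i' | i') hne x
    · exact h1 (Sum.inl i) (Sum.inl i') (by simpa using hne) x
    · refine Fin.lastCases ?_ (fun i' => ?_) i' 
      · exact h2 (Sum.inl i) x
      · exact h1 (Sum.inl i) (Sum.inr i') (by simp) x
    · refine Fin.lastCases ?_ (fun i => ?_) i
      · exact (h2 (Sum.inl i') x).symm
      · exact h1 (Sum.inr i) (Sum.inl i') (by simp) x
    · revert hne
      refine Fin.lastCases ?_ (fun i => ?_) i
      · refine Fin.lastCases ?_ (fun i' => ?_) i'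
        · intro h; exact absurd rfl h
        · intro _
          exact (h2 (Sum.inr i') x).symm
      · refine Fin.lastCases ?_ (fun i' => ?_) i'
        · intro _
          exact h2 (Sum.inr i) x
        · intro hne
          refine h1 (Sum.inr i) (Sum.inr i') ?_ x
          intro h3
          apply hne
          rw [Sum.inr.injEq] at h3
          rw [h3]

theorem card_Ex_succ (j : ℕ) : (Ex σ (Fin (j + 1))).card =
    ∑ τ ∈ Ex σ (Fin j), (nxt (Sum.elim σ τ)).card := by
  classical
  rw [← card_sigma]
  refine card_bij (fun τ _ => ⟨fun i => τ i.castSucc, τ (Fin.last j)⟩) ?_ ?_ ?_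
  · intro τ hτ
    rw [mem_Ex, disc_snoc] at hτ
    rw [mem_sigma, mem_Ex]
    exact hτ
  · intro τ _ τ' _ h
    simp only [Sigma.mk.injEq, heq_eq_eq] at h
    funext i
    refine Fin.lastCases ?_ (fun i => ?_) i
    · exact h.2
    · exact congrFun h.1 i
  · rintro ⟨τ, ρ⟩ h
    rw [mem_sigma, mem_Ex] at h
    refine ⟨Fin.snoc τ ρ, ?_, ?_⟩
    · rw [mem_Ex, disc_snoc]
      simpa using h
    · simp

theorem card_Ex_le (_h : Disc σ) (j : ℕ) : ((Ex σ (Fin j)).card : ℝ) ≤
    Real.exp (n * ∑ t ∈ range j, gg (n - (Fintype.card ι + t))) := by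
  induction j with
  | zero =>
    rw [range_zero, sum_empty, mul_zero, Real.exp_zero]
    have h1 := card_le_univ (Ex σ (Fin 0))
    rw [Fintype.card_fun, Fintype.card_fin, pow_zero] at h1
    exact_mod_cast h1
  | succ j ih =>
    rw [card_Ex_succ, sum_range_succ, mul_add, Real.exp_add]
    push_cast
    calc ∑ τ ∈ Ex σ (Fin j), ((nxt (Sum.elim σ τ)).card : ℝ) ≤
        ∑ _τ ∈ Ex σ (Fin j), Real.exp (n * gg (n - (Fintype.card ι + j))) := by
          refine sum_le_sum fun τ hτ => ?_
          have h1 := nxt_ub (mem_Ex.1 hτ)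
          rwa [Fintype.card_sum, Fintype.card_fin] at h1
      _ = (Ex σ (Fin j)).card * Real.exp (n * gg (n - (Fintype.card ι + j))) := by
          rw [sum_const, nsmul_eq_mul]
      _ ≤ _ := mul_le_mul_of_nonneg_right ih (Real.exp_nonneg _)

theorem card_Ex_ge (h : Disc σ) (j : ℕ) (hj : Fintype.card ι + j ≤ n) :
    ∏ t ∈ range j, (((n - (Fintype.card ι + t) : ℕ) : ℝ) ^ n * Real.exp (-(n : ℝ))) ≤
      (Ex σ (Fin j)).card := by
  classical
  induction j with
  | zero =>
    rw [range_zero, prod_empty]
    have h1 : (Ex σ (Fin 0)).Nonempty := by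
      refine ⟨fun i => i.elim0, ?_⟩
      rw [mem_Ex]
      rintro (i | i) (i' | i') hne x
      · exact h i i' (by simpa using hne) x
      · exact i'.elim0
      · exact i.elim0
      · exact i.elim0
    exact_mod_cast h1.card_pos
  | succ j ih =>
    rw [card_Ex_succ, prod_range_succ]
    push_cast
    have ih' := ih (by omega)
    calc _ ≤ ((Ex σ (Fin j)).card : ℝ) *
          (((n - (Fintype.card ι + j) : ℕ) : ℝ) ^ n * Real.exp (-(n : ℝ))) :=
          mul_le_mul_of_nonneg_right ih' (by positivity)
      _ = ∑ _τ ∈ Ex σ (Fin j),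
          (((n - (Fintype.card ι + j) : ℕ) : ℝ) ^ n * Real.exp (-(n : ℝ))) := by
          rw [sum_const, nsmul_eq_mul]
      _ ≤ _ := by
          refine sum_le_sum fun τ hτ => ?_
          have h1 := nxt_lb (mem_Ex.1 hτ) (by
            rw [Fintype.card_sum, Fintype.card_fin]
            omega)
          rwa [Fintype.card_sum, Fintype.card_fin] at h1

end

end Pool.Agent.T2H17.BL
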