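import Pool.Agent.T2H17.BL.Super
import Pool.Agent.Y940.CT.Iter

/-!
# The hypergraph of the copies of a configuration
-/

set_option autoImplicit false

open Finset
open Pool.Agent.Y940.CT (Spread deg Ind Cov containers)

namespace Pool.Agent.T2H17.BL

/-- the cell of the `i`-th edge of the configuration under the map `φ` -/
def tri {n s a b c : ℕ} (r : Fin s → Fin a) (q : Fin s → Fin b) (z : Fin s → Fin c)
    (φ : M n a b c) (i : Fin s) : T n := (φ.1 (r i), φ.2.1 (q i), φ.2.2 (z i))

/-- at least two edges of the configuration span at least three more vertices -/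
def LS {s a b c : ℕ} (r : Fin s → Fin a) (q : Fin s → Fin b) (z : Fin s → Fin c) : Prop :=
  ∀ E : Finset (Fin s), 2 ≤ E.card →
    E.card + 3 ≤ (E.image r).card + (E.image q).card + (E.image z).card

theorem LS.inj {s a b c : ℕ} {r : Fin s → Fin a} {q : Fin s → Fin b} {z : Fin s → Fin c}
    (h : LS r q z) {i j : Fin s} (hr : r i = r j) (hq : q i = q j) (hz : z i = z j) : i = j := by
  by_contra hij
  have h1 := h {i, j} (by rw [card_pair hij])
  rw [card_pair hij, image_insert, image_insert, image_insert, image_singleton, image_singleton,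
    image_singleton, hr, hq, hz] at h1
  simp at h1

/-- encoding of the cells by natural numbers -/
noncomputable def enc (n : ℕ) (t : T n) : ℕ := (Fintype.equivFin (T n) t : ℕ)

theorem enc_inj (n : ℕ) : Function.Injective (enc n) := fun _ _ h =>
  (Fintype.equivFin (T n)).injective (Fin.ext h)

theorem enc_lt (n : ℕ) (t : T n) : enc n t < n ^ 3 := by
  have h := (Fintype.equivFin (T n) t).2
  have h1 : Fintype.card (T n) = n ^ 3 := by
    rw [Fintype.card_prod, Fintype.card_prod, Fintype.card_fin]; ring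
  unfold enc
  omega

section

variable {n s a b c : ℕ} (r : Fin s → Fin a) (q : Fin s → Fin b) (z : Fin s → Fin c)

/-- the set of the codes of the cells of a copy -/
noncomputable def img (φ : M n a b c) : Finset ℕ := univ.image fun i => enc n (tri r q z φ i)

/-- the hypergraph of the copies inside `U` -/
noncomputable def wU (n : ℕ) (U e : Finset ℕ) : ℝ :=
  (((inj n a b c).filter fun φ => img r q z φ = e ∧ e ⊆ U).card : ℝ)

theorem sum_wU (U : Finset ℕ) (P : Finset ℕ → Prop) [DecidablePred P] :
    ∑ e ∈ U.powerset, (if P e then wU r q z n U e else 0) =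
      (((inj n a b c).filter fun φ => img r q z φ ⊆ U ∧ P (img r q z φ)).card : ℝ) := by
  classical
  rw [card_eq_sum_card_fiberwise (f := img r q z) (t := U.powerset)]
  · push_cast
    refine sum_congr rfl fun e he => ?_
    rw [filter_filter]
    split_ifs with h
    · unfold wU
      congr 2
      ext φ
      simp only [mem_filter]
      constructor
      · rintro ⟨h1, h2, h3⟩
        exact ⟨h1, by rw [h2]; exact ⟨h3, h⟩, h2⟩
      · rintro ⟨h1, ⟨h2, h3⟩, h4⟩
        exact ⟨h1, h4, by rw [← h4]; exact h2⟩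
    · symm
      rw [Nat.cast_eq_zero, card_eq_zero, filter_eq_empty_iff]
      rintro φ _ ⟨⟨_, h2⟩, h3⟩
      rw [h3] at h2
      exact h h2
  · intro φ hφ
    rw [coe_filter] at hφ
    exact mem_coe.2 (mem_powerset.2 hφ.2.1)

/-- the number of the maps which send prescribed edges to prescribed cells -/
theorem card_fix (hn : 0 < n) (h : LS r q z) (J : Finset ℕ) (hJ : J.Nonempty)
    (f : {x // x ∈ J} → Fin s) :
    (univ.filter fun φ : M n a b c => ∀ j, enc n (tri r q z φ (f j)) = j.1).card *
      n ^ (if J.card = 1 then 3 else J.card + 3) ≤ n ^ (a + b + c) := by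
  classical
  by_cases hne : (univ.filter fun φ : M n a b c => ∀ j, enc n (tri r q z φ (f j)) = j.1).Nonempty
  swap
  · rw [not_nonempty_iff_eq_empty] at hne
    rw [hne, card_empty, zero_mul]
    exact Nat.zero_le _
  obtain ⟨φ₀, hφ₀⟩ := hne
  have h0 := (mem_filter.1 hφ₀).2
  have hfi : Function.Injective f := by
    intro j j' hj
    have h1 := h0 j
    have h2 := h0 j'
    rw [hj, h2] at h1
    exact Subtype.ext h1.symm
  set E := univ.image f with hE
  have hEc : E.card = J.card := by
    rw [hE, card_image_of_injective _ hfi, card_univ, Fintype.card_coe]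
  have hsub : (univ.filter fun φ : M n a b c => ∀ j, enc n (tri r q z φ (f j)) = j.1) ⊆
      (univ.filter fun g : Fin a → Fin n => ∀ i ∈ E.image r, g i = φ₀.1 i) ×ˢ
      ((univ.filter fun g : Fin b → Fin n => ∀ i ∈ E.image q, g i = φ₀.2.1 i) ×ˢ
      (univ.filter fun g : Fin c → Fin n => ∀ i ∈ E.image z, g i = φ₀.2.2 i)) := by
    intro φ hφ
    have h1 := (mem_filter.1 hφ).2
    have h2 : ∀ j, tri r q z φ (f j) = tri r q z φ₀ (f j) := fun j =>
      enc_inj n (by rw [h1 j, h0 j])
    have h3 : ∀ e ∈ E, tri r q z φ e = tri r q z φ₀ e := by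
      intro e he
      rw [hE, mem_image] at he
      obtain ⟨j, _, rfl⟩ := he
      exact h2 j
    simp only [mem_product, mem_filter, mem_univ, true_and]
    refine ⟨?_, ?_, ?_⟩
    · intro i hi
      obtain ⟨e, he, rfl⟩ := mem_image.1 hi
      exact congrArg Prod.fst (h3 e he)
    · intro i hi
      obtain ⟨e, he, rfl⟩ := mem_image.1 hi
      exact congrArg (fun t => t.2.1) (h3 e he)
    · intro i hi
      obtain ⟨e, he, rfl⟩ := mem_image.1 hi
      exact congrArg (fun t => t.2.2) (h3 e he)
  have h1 := card_le_card hsub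
  rw [card_product, card_product, card_agree, card_agree, card_agree] at h1
  have hr : (E.image r).card ≤ a := by
    refine (card_le_univ _).trans ?_
    rw [Fintype.card_fin]
  have hq : (E.image q).card ≤ b := by
    refine (card_le_univ _).trans ?_
    rw [Fintype.card_fin]
  have hz : (E.image z).card ≤ c := by
    refine (card_le_univ _).trans ?_
    rw [Fintype.card_fin]
  have hJ1 : 1 ≤ J.card := hJ.card_pos
  have hEne : E.Nonempty := by
    rw [← card_pos, hEc]; omega
  have hex : (if J.card = 1 then 3 else J.card + 3) ≤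
      (E.image r).card + (E.image q).card + (E.image z).card := by
    split_ifs with h2
    · have := (hEne.image r).card_pos
      have := (hEne.image q).card_pos
      have := (hEne.image z).card_pos
      omega
    · rw [← hEc]
      exact h E (by omega)
  calc _ ≤ (n ^ (a - (E.image r).card) * (n ^ (b - (E.image q).card) *
        n ^ (c - (E.image z).card))) *
          n ^ ((E.image r).card + (E.image q).card + (E.image z).card) :=
        Nat.mul_le_mul h1 (Nat.pow_le_pow_right hn hex)
    _ = n ^ (a + b + c) := by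
        rw [← pow_add, ← pow_add, ← pow_add]
        congr 1
        omega

/-- the codegrees -/
theorem card_cod (hn : 0 < n) (h : LS r q z) (J : Finset ℕ) (hJ : J.Nonempty) :
    (univ.filter fun φ : M n a b c => J ⊆ img r q z φ).card *
      n ^ (if J.card = 1 then 3 else J.card + 3) ≤ s ^ J.card * n ^ (a + b + c) := by
  classical
  have hsub : (univ.filter fun φ : M n a b c => J ⊆ img r q z φ) ⊆
      (univ : Finset ({x // x ∈ J} → Fin s)).biUnion fun f =>
        univ.filter fun φ : M n a b c => ∀ j, enc n (tri r q z φ (f j)) = j.1 := by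
    intro φ hφ
    have h1 := (mem_filter.1 hφ).2
    have h2 : ∀ j : {x // x ∈ J}, ∃ i, enc n (tri r q z φ i) = j.1 := by
      intro j
      have h3 := h1 j.2
      unfold img at h3
      obtain ⟨i, _, h4⟩ := mem_image.1 h3
      exact ⟨i, h4⟩
    choose f hf using h2
    rw [mem_biUnion]
    exact ⟨f, mem_univ _, mem_filter.2 ⟨mem_univ _, hf⟩⟩
  calc _ ≤ (∑ f : {x // x ∈ J} → Fin s,
        (univ.filter fun φ : M n a b c => ∀ j, enc n (tri r q z φ (f j)) = j.1).card) *
          n ^ (if J.card = 1 then 3 else J.card + 3) :=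
        Nat.mul_le_mul_right _ ((card_le_card hsub).trans card_biUnion_le)
    _ = ∑ f : {x // x ∈ J} → Fin s,
        (univ.filter fun φ : M n a b c => ∀ j, enc n (tri r q z φ (f j)) = j.1).card *
          n ^ (if J.card = 1 then 3 else J.card + 3) := by rw [sum_mul]
    _ ≤ ∑ _f : {x // x ∈ J} → Fin s, n ^ (a + b + c) :=
        sum_le_sum fun f _ => card_fix r q z hn h J hJ f
    _ = _ := by
        rw [sum_const, card_univ, Fintype.card_fun, Fintype.card_fin, Fintype.card_coe,
          smul_eq_mul]

theorem card_img (h : LS r q z) {φ : M n a b c} (hφ : φ ∈ inj n a b c) :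
    (img r q z φ).card = s := by
  unfold img
  rw [card_image_of_injective, card_univ, Fintype.card_fin]
  intro i j hij
  have h1 := enc_inj n hij
  rw [mem_inj] at hφ
  unfold tri at h1
  simp only [Prod.mk.injEq] at h1
  exact h.inj (hφ.1 h1.1) (hφ.2.1 h1.2.1) (hφ.2.2 h1.2.2)

/-- the cells with code in `U` -/
noncomputable def cells (n : ℕ) (U : Finset ℕ) : Finset (T n) := by
  classical
  exact univ.filter fun t => enc n t ∈ U

theorem mem_cells {U : Finset ℕ} {t : T n} : t ∈ cells n U ↔ enc n t ∈ U := by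
  classical
  unfold cells
  simp

theorem card_cells {U : Finset ℕ} (hU : U ⊆ range (n ^ 3)) : (cells n U).card = U.card := by
  classical
  rw [← card_map ⟨enc n, enc_inj n⟩]
  congr 1
  ext x
  rw [mem_map]
  constructor
  · rintro ⟨t, ht, rfl⟩
    exact mem_cells.1 ht
  · intro hx
    have h1 : Fintype.card (T n) = n ^ 3 := by
      rw [Fintype.card_prod, Fintype.card_prod, Fintype.card_fin]; ring
    have hx3 : x < Fintype.card (T n) := by
      rw [h1]; exact mem_range.1 (hU hx)
    refine ⟨(Fintype.equivFin (T n)).symm ⟨x, hx3⟩, ?_, ?_⟩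
    · rw [mem_cells]
      unfold enc
      rw [Equiv.apply_symm_apply]
      exact hx
    · show enc n _ = x
      unfold enc
      rw [Equiv.apply_symm_apply]

/-- the number of the copies inside `U` -/
theorem total_ge (hn : 0 < n) (U : Finset ℕ) (hU : U ⊆ range (n ^ 3)) (x : ℝ) (hx0 : 0 ≤ x)
    (hx : x * n ^ 3 ≤ U.card) (hbig : (a : ℝ) ^ 2 + b ^ 2 + c ^ 2 ≤ x ^ (a * b * c) / 2 * n) :
    x ^ (a * b * c) / 2 * n ^ (a + b + c) ≤
      (((inj n a b c).filter fun φ => img r q z φ ⊆ U).card : ℝ) := by
  classical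
  have hn0 : (0 : ℝ) < n := by exact_mod_cast hn
  have h1 := super hn a b c (cells n U) x hx0 (by rw [card_cells hU]; exact hx)
  have h2 := card_inj_compl n a b c
  have h3 : (univ.filter fun φ : M n a b c => ∀ i j k, (φ.1 i, φ.2.1 j, φ.2.2 k) ∈ cells n U) ⊆
      ((inj n a b c).filter fun φ => img r q z φ ⊆ U) ∪
        (univ.filter fun φ : M n a b c => φ ∉ inj n a b c) := by
    intro φ hφ
    have h4 := (mem_filter.1 hφ).2
    rw [mem_union, mem_filter, mem_filter]
    by_cases h5 : φ ∈ inj n a b c
    · left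
      refine ⟨h5, ?_⟩
      intro x hx
      unfold img at hx
      obtain ⟨i, _, rfl⟩ := mem_image.1 hx
      exact mem_cells.1 (h4 (r i) (q i) (z i))
    · right
      exact ⟨mem_univ _, h5⟩
  have h4 : ((univ.filter fun φ : M n a b c => ∀ i j k,
      (φ.1 i, φ.2.1 j, φ.2.2 k) ∈ cells n U).card : ℝ) ≤
      (((inj n a b c).filter fun φ => img r q z φ ⊆ U).card : ℝ) +
        ((univ.filter fun φ : M n a b c => φ ∉ inj n a b c).card : ℝ) := by
    exact_mod_cast (card_le_card h3).trans (card_union_le _ _)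
  have h5 : (n : ℝ) * ((univ.filter fun φ : M n a b c => φ ∉ inj n a b c).card : ℝ) ≤
      ((a : ℝ) ^ 2 + b ^ 2 + c ^ 2) * n ^ (a + b + c) := by exact_mod_cast h2
  have h6 : ((univ.filter fun φ : M n a b c => φ ∉ inj n a b c).card : ℝ) ≤
      x ^ (a * b * c) / 2 * n ^ (a + b + c) := by
    have h7 : ((a : ℝ) ^ 2 + b ^ 2 + c ^ 2) * n ^ (a + b + c) ≤
        (x ^ (a * b * c) / 2 * n) * n ^ (a + b + c) :=
      mul_le_mul_of_nonneg_right hbig (by positivity)
    have h8 : (n : ℝ) * ((univ.filter fun φ : M n a b c => φ ∉ inj n a b c).card : ℝ) ≤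
        n * (x ^ (a * b * c) / 2 * n ^ (a + b + c)) := by
      refine h5.trans (h7.trans (le_of_eq ?_))
      ring
    exact le_of_mul_le_mul_left h8 hn0
  have h7 : x ^ (a * b * c) * (n : ℝ) ^ (a + b + c) =
      x ^ (a * b * c) / 2 * n ^ (a + b + c) + x ^ (a * b * c) / 2 * n ^ (a + b + c) := by ring
  linarith

theorem spread (hn : 0 < n) (h : LS r q z) (hs : 1 ≤ s) (U : Finset ℕ) (hU : U ⊆ range (n ^ 3))
    (x : ℝ) (hx0 : 0 < x) (hx : x * n ^ 3 ≤ U.card)
    (hbig : (a : ℝ) ^ 2 + b ^ 2 + c ^ 2 ≤ x ^ (a * b * c) / 2 * n) (τ : ℝ) (hτ : 0 < τ)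
    (hτe : ∀ e : ℕ, 2 ≤ e → e ≤ s → 1 ≤ τ ^ (e - 1) * (n : ℝ) ^ e) :
    Spread U s (wU r q z n U) (x ^ (a * b * c) / 2 * n ^ (a + b + c) / n ^ 3)
      (2 * s ^ s / x ^ (a * b * c)) τ := by
  classical
  have hn0 : (0 : ℝ) < n := by exact_mod_cast hn
  have hxp : 0 < x ^ (a * b * c) := pow_pos hx0 _
  refine ⟨fun e => by unfold wU; positivity, ?_, ?_, ?_⟩
  · intro e he
    unfold wU at he
    rw [Nat.cast_ne_zero, card_ne_zero] at he
    obtain ⟨φ, hφ⟩ := he
    obtain ⟨h1, h2, h3⟩ := mem_filter.1 hφ
    exact ⟨h3, by rw [← h2]; exact card_img r q z h h1⟩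
  · have h1 := total_ge r q z hn U hU x hx0.le hx hbig
    have h2 := sum_wU r q z (n := n) U (fun _ => True)
    simp only [if_true, and_true] at h2
    rw [h2]
    refine le_trans ?_ h1
    have h3 : (U.card : ℝ) ≤ n ^ 3 := by
      have := card_le_card hU
      rw [card_range] at this
      exact_mod_cast this
    rw [mul_div_assoc', div_le_iff₀ (by positivity), mul_comm]
    exact mul_le_mul_of_nonneg_left h3 (by positivity)
  · intro J hJ
    have h2 := sum_wU r q z (n := n) U (fun e => J ⊆ e)
    unfold deg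
    rw [h2]
    by_cases hJs : s < J.card
    · have h3 : ((inj n a b c).filter fun φ => img r q z φ ⊆ U ∧ J ⊆ img r q z φ) = ∅ := by
        rw [filter_eq_empty_iff]
        rintro φ hφ ⟨_, h4⟩
        have h5 := card_le_card h4
        rw [card_img r q z h hφ] at h5
        omega
      rw [h3, card_empty, Nat.cast_zero, zero_mul]
      positivity
    push Not at hJs
    have h3 : (((inj n a b c).filter fun φ => img r q z φ ⊆ U ∧ J ⊆ img r q z φ).card : ℝ) ≤
        ((univ.filter fun φ : M n a b c => J ⊆ img r q z φ).card : ℝ) := by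
      refine Nat.cast_le.2 (card_le_card ?_)
      intro φ hφ
      exact mem_filter.2 ⟨mem_univ _, (mem_filter.1 hφ).2.2⟩
    have h4 := card_cod r q z hn h J hJ
    have h5 : ((univ.filter fun φ : M n a b c => J ⊆ img r q z φ).card : ℝ) *
        (n : ℝ) ^ (if J.card = 1 then 3 else J.card + 3) ≤ (s : ℝ) ^ J.card * n ^ (a + b + c) := by
      exact_mod_cast h4
    have hs1 : (1 : ℝ) ≤ s := by exact_mod_cast hs
    have hsJ : (s : ℝ) ^ J.card ≤ s ^ s := pow_le_pow_right₀ hs1 hJs
    have hJ1 := hJ.card_pos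
    have hKD : 2 * (s : ℝ) ^ s / x ^ (a * b * c) *
        (x ^ (a * b * c) / 2 * n ^ (a + b + c) / n ^ 3) = s ^ s * n ^ (a + b + c) / n ^ 3 := by
      field_simp
    rw [hKD]
    refine (mul_le_mul_of_nonneg_right h3 hτ.le).trans ?_
    split_ifs at h5 with hc
    · rw [hc, pow_one]
      refine mul_le_mul_of_nonneg_right ?_ hτ.le
      rw [le_div_iff₀ (by positivity)]
      exact h5.trans (mul_le_mul_of_nonneg_right hsJ (by positivity))
    · have h6 := hτe J.card (by omega) hJs
      have h7 : ((univ.filter fun φ : M n a b c => J ⊆ img r q z φ).card : ℝ) ≤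
          s ^ s * n ^ (a + b + c) / (n ^ 3 * n ^ J.card) := by
        rw [le_div_iff₀ (by positivity)]
        calc _ = ((univ.filter fun φ : M n a b c => J ⊆ img r q z φ).card : ℝ) *
              (n : ℝ) ^ (J.card + 3) := by ring
          _ ≤ _ := h5.trans (mul_le_mul_of_nonneg_right hsJ (by positivity))
      have h8 : τ ^ J.card = τ ^ (J.card - 1) * τ := by
        rw [← pow_succ]
        congr 1
        omega
      rw [h8]
      calc _ ≤ s ^ s * n ^ (a + b + c) / (n ^ 3 * n ^ J.card) * τ :=
            mul_le_mul_of_nonneg_right h7 hτ.le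
        _ = (s ^ s * n ^ (a + b + c) / n ^ 3 * τ) * (1 / n ^ J.card) := by
            field_simp
        _ ≤ (s ^ s * n ^ (a + b + c) / n ^ 3 * τ) * τ ^ (J.card - 1) := by
            refine mul_le_mul_of_nonneg_left ?_ (by positivity)
            rw [div_le_iff₀ (by positivity)]
            exact h6
        _ = _ := by ring

end

end Pool.Agent.T2H17.BL
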