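import Pool.Agent.T2H17.BL.Trans
import Pool.Agent.T2H17.BL.CoverE

/-!
# Power saving in almost all Latin squares
-/

set_option autoImplicit false

open Finset Filter
open Equiv (Perm)
open Pool.Agent.Y940.CT (Cov)

namespace Pool.Agent.T2H17.BL

/-- the entries of a Latin square -/
noncomputable def ent {n : ℕ} (L : Fin n → Fin n → Fin n) : Finset (T n) := by
  classical
  exact univ.image fun p : Fin n × Fin n => (p.1, p.2, L p.1 p.2)

theorem mem_ent {n : ℕ} {L : Fin n → Fin n → Fin n} {t : T n} :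
    t ∈ ent L ↔ L t.1 t.2.1 = t.2.2 := by
  classical
  unfold ent
  rw [mem_image]
  constructor
  · rintro ⟨p, _, rfl⟩
    rfl
  · intro h
    exact ⟨(t.1, t.2.1), mem_univ _, by rw [h]⟩

theorem card_ent_inter {n : ℕ} (L : Fin n → Fin n → Fin n) (V : Finset (T n))
    [DecidableEq (T n)] : (ent L ∩ V).card =
      (univ.filter fun p : Fin n × Fin n => (p.1, p.2, L p.1 p.2) ∈ V).card := by
  classical
  symm
  refine card_bij (fun p _ => (p.1, p.2, L p.1 p.2)) ?_ ?_ ?_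
  · intro p hp
    rw [mem_inter, mem_ent]
    exact ⟨rfl, (mem_filter.1 hp).2⟩
  · intro p _ p' _ h
    simp only [Prod.mk.injEq] at h
    exact Prod.ext h.1 h.2.1
  · intro t ht
    rw [mem_inter, mem_ent] at ht
    have h1 : (t.1, t.2.1, L t.1 t.2.1) = t := by rw [ht.1]
    exact ⟨(t.1, t.2.1), mem_filter.2 ⟨mem_univ _, by rw [h1]; exact ht.2⟩, h1⟩

section

variable {s a b c : ℕ} (r : Fin s → Fin a) (q : Fin s → Fin b) (z : Fin s → Fin c)

/-- `H` contains no copy of the configuration -/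
def NoCopy {n : ℕ} (H : Finset (T n)) : Prop :=
  ∀ φ ∈ inj n a b c, ¬ ∀ i, tri r q z φ i ∈ H

set_option maxHeartbeats 1000000 in
/-- **Almost all Latin squares** -/
theorem almost_all (h : LS r q z) (hs : 1 ≤ s) :
    ∃ κ : ℝ, 0 < κ ∧ κ ≤ 1 / 4 ∧ ∃ n₀ : ℕ, ∀ n : ℕ, n₀ ≤ n → ∀ m : ℝ, (n : ℝ) ^ (2 - κ) ≤ m →
      ∀ B : Finset (Fin n → Perm (Fin n)), (∀ L ∈ B, Disc L ∧
        ∃ H ⊆ ent (fun i j => L i j), m ≤ (H.card : ℝ) ∧ NoCopy r q z H) →
      (B.card : ℝ) ≤ (LL n).card * Real.exp (-(κ * (m / n) ^ 2 * Real.log n)) := by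
  classical
  obtain ⟨β, hβ0, θ, hθ0, n₁, hcov⟩ := coverP r q z h hs
  set κ : ℝ := min (min (β / 16) (θ / 2)) (1 / 4) with hκ
  have hκ0 : 0 < κ := lt_min (lt_min (by positivity) (by positivity)) (by norm_num)
  have hκβ : κ ≤ β / 16 := (min_le_left _ _).trans (min_le_left _ _)
  have hκθ : κ ≤ θ / 2 := (min_le_left _ _).trans (min_le_right _ _)
  have hκ4 : κ ≤ 1 / 4 := min_le_right _ _
  refine ⟨κ, hκ0, hκ4, ?_⟩
  have hlim1 : Tendsto (fun n : ℕ => (n : ℝ) ^ (1 / 4 : ℝ)) atTop atTop :=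
    (tendsto_rpow_atTop (by norm_num)).comp tendsto_natCast_atTop_atTop
  have hlim2 : Tendsto (fun n : ℕ => (n : ℝ) ^ (3 * β / 8)) atTop atTop :=
    (tendsto_rpow_atTop (by positivity)).comp tendsto_natCast_atTop_atTop
  have hlim3 : Tendsto (fun n : ℕ => Real.log (n : ℝ)) atTop atTop :=
    Real.tendsto_log_atTop.comp tendsto_natCast_atTop_atTop
  obtain ⟨n₂, hn₂⟩ := eventually_atTop.1 (hlim1.eventually_ge_atTop 243)
  obtain ⟨n₃, hn₃⟩ := eventually_atTop.1 (hlim2.eventually_ge_atTop (Real.exp 1))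
  obtain ⟨n₄, hn₄⟩ := eventually_atTop.1 (hlim3.eventually_ge_atTop (64 / β))
  refine ⟨max 1 (max n₁ (max n₂ (max n₃ n₄))), ?_⟩
  intro n hn m hm B hB
  have hn1 : 1 ≤ n := (le_max_left _ _).trans hn
  have hnn1 : n₁ ≤ n := ((le_max_left _ _).trans (le_max_right _ _)).trans hn
  have hnn2 : n₂ ≤ n := ((le_max_left _ _).trans ((le_max_right _ _).trans (le_max_right _ _))).trans hn
  have hnn3 : n₃ ≤ n := ((le_max_left _ _).trans ((le_max_right _ _).trans
    ((le_max_right _ _).trans (le_max_right _ _)))).trans hn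
  have hnn4 : n₄ ≤ n := ((le_max_right _ _).trans ((le_max_right _ _).trans
    ((le_max_right _ _).trans (le_max_right _ _)))).trans hn
  have hn1' : (1 : ℝ) ≤ n := by exact_mod_cast hn1
  have hn0' : (0 : ℝ) < n := by linarith
  have hb1 := hn₂ n hnn2
  have hb2 := hn₃ n hnn3
  have hb3 := hn₄ n hnn4
  have hlog0 : 0 ≤ Real.log n := Real.log_nonneg hn1'
  by_cases hmn : (n : ℝ) ^ 2 < m
  · have hBe : B = ∅ := by
      rw [eq_empty_iff_forall_notMem]
      intro L hL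
      obtain ⟨_, H, hH1, hH2, _⟩ := hB L hL
      have h1 := card_le_card hH1
      have h2 : (ent fun i j => L i j).card ≤ n ^ 2 := by
        unfold ent
        refine card_image_le.trans (le_of_eq ?_)
        rw [card_univ, Fintype.card_prod, Fintype.card_fin, sq]
      have h3 : (H.card : ℝ) ≤ (n : ℝ) ^ 2 := by exact_mod_cast h1.trans h2
      linarith
    rw [hBe, card_empty, Nat.cast_zero]
    positivity
  push Not at hmn
  obtain ⟨𝒞, hc1, hc2, hc3⟩ := hcov n hnn1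
  have hm0 : 0 < m := lt_of_lt_of_le (by positivity) hm
  set y : ℝ := m / n with hy
  have hy0 : 0 < y := by positivity
  have hyn : (n : ℝ) ^ (1 - κ) ≤ y := by
    rw [hy, le_div_iff₀ hn0']
    calc (n : ℝ) ^ (1 - κ) * n = (n : ℝ) ^ (2 - κ) := by
          nth_rewrite 2 [← Real.rpow_one (n : ℝ)]
          rw [← Real.rpow_add hn0']
          congr 1
          ring
      _ ≤ m := hm
  have hyn2 : y ≤ n := by
    rw [hy, div_le_iff₀ hn0']
    linarith [hmn, sq (n : ℝ)]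
  have hy2 : (n : ℝ) ^ (2 - 2 * κ) ≤ y ^ 2 := by
    calc (n : ℝ) ^ (2 - 2 * κ) = ((n : ℝ) ^ (1 - κ)) ^ 2 := by
          rw [← Real.rpow_natCast, ← Real.rpow_mul hn0'.le]
          congr 1
          push_cast
          ring
      _ ≤ y ^ 2 := pow_le_pow_left₀ (by positivity) hyn 2
  set k : ℕ := ⌊y / 2⌋₊ with hk
  have hk1 : (k : ℝ) ≤ y / 2 := Nat.floor_le (by positivity)
  have hy4 : 4 ≤ y := by
    have h1 : (n : ℝ) ^ (1 / 4 : ℝ) ≤ (n : ℝ) ^ (1 - κ) :=
      Real.rpow_le_rpow_of_exponent_le hn1' (by linarith)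
    linarith
  have hk2 : y / 4 ≤ (k : ℝ) := by
    have := (Nat.lt_floor_add_one (y / 2)).le
    rw [← hk] at this
    linarith
  have hkn : 2 * k ≤ n := by
    have h1 : (2 : ℝ) * k ≤ n := by linarith
    exact_mod_cast h1
  set lam : ℝ := (n : ℝ) ^ (β / 2) with hlam
  have hlam1 : 1 ≤ lam := Real.one_le_rpow hn1' (by positivity)
  have hloglam : Real.log lam = β / 2 * Real.log n := Real.log_rpow hn0' _
  -- the three error terms
  have he1 : (n : ℝ) ^ (2 - θ) ≤ y ^ 2 :=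
    (Real.rpow_le_rpow_of_exponent_le hn1' (by linarith)).trans hy2
  have he2 : ∀ V : Finset (T n), (V.card : ℝ) ≤ (n : ℝ) ^ (3 - β) →
      Real.exp 1 * (lam - 1) * V.card / n ≤ y ^ 2 := by
    intro V hV
    calc Real.exp 1 * (lam - 1) * V.card / n ≤ Real.exp 1 * lam * (n : ℝ) ^ (3 - β) / n := by
          refine div_le_div_of_nonneg_right ?_ hn0'.le
          refine mul_le_mul ?_ hV (Nat.cast_nonneg _) (by positivity)
          exact mul_le_mul_of_nonneg_left (by linarith) (Real.exp_nonneg _)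
      _ = Real.exp 1 * (n : ℝ) ^ (2 - β / 2) := by
          rw [hlam, mul_assoc, ← Real.rpow_add hn0', mul_div_assoc]
          congr 1
          rw [div_eq_iff hn0'.ne']
          nth_rewrite 3 [← Real.rpow_one (n : ℝ)]
          rw [← Real.rpow_add hn0']
          congr 1
          ring
      _ ≤ (n : ℝ) ^ (3 * β / 8) * (n : ℝ) ^ (2 - β / 2) :=
          mul_le_mul_of_nonneg_right hb2 (by positivity)
      _ = (n : ℝ) ^ (2 - β / 8) := by
          rw [← Real.rpow_add hn0']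
          congr 1
          ring
      _ ≤ (n : ℝ) ^ (2 - 2 * κ) := Real.rpow_le_rpow_of_exponent_le hn1' (by linarith)
      _ ≤ y ^ 2 := hy2
  have he3 : (n : ℝ) + 2 * n * (1 + Real.log n) ^ 2 ≤ y ^ 2 := by
    have h1 : Real.log n ≤ 8 * (n : ℝ) ^ (1 / 8 : ℝ) := by
      have := Real.log_le_rpow_div hn0'.le (show (0 : ℝ) < 1 / 8 by norm_num)
      linarith
    have h2 : 1 ≤ (n : ℝ) ^ (1 / 8 : ℝ) := Real.one_le_rpow hn1' (by norm_num)
    have h3 : (1 + Real.log n) ^ 2 ≤ 81 * (n : ℝ) ^ (1 / 4 : ℝ) := by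
      calc (1 + Real.log n) ^ 2 ≤ (9 * (n : ℝ) ^ (1 / 8 : ℝ)) ^ 2 :=
            pow_le_pow_left₀ (by linarith) (by linarith) 2
        _ = 81 * ((n : ℝ) ^ (1 / 8 : ℝ) * (n : ℝ) ^ (1 / 8 : ℝ)) := by ring
        _ = 81 * (n : ℝ) ^ (1 / 4 : ℝ) := by
            rw [← Real.rpow_add hn0']
            norm_num
    have h4 : 1 ≤ (1 + Real.log n) ^ 2 := one_le_pow₀ (by linarith)
    calc (n : ℝ) + 2 * n * (1 + Real.log n) ^ 2 ≤ n * (3 * (1 + Real.log n) ^ 2) := by nlinarith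
      _ ≤ n * (243 * (n : ℝ) ^ (1 / 4 : ℝ)) :=
          mul_le_mul_of_nonneg_left (by linarith) hn0'.le
      _ ≤ n * ((n : ℝ) ^ (1 / 4 : ℝ) * (n : ℝ) ^ (1 / 4 : ℝ)) := by
          refine mul_le_mul_of_nonneg_left ?_ hn0'.le
          exact mul_le_mul_of_nonneg_right hb1 (by positivity)
      _ = (n : ℝ) ^ (3 / 2 : ℝ) := by
          nth_rewrite 1 [← Real.rpow_one (n : ℝ)]
          rw [← Real.rpow_add hn0', ← Real.rpow_add hn0']
          norm_num
      _ ≤ (n : ℝ) ^ (2 - 2 * κ) := Real.rpow_le_rpow_of_exponent_le hn1' (by linarith)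
      _ ≤ y ^ 2 := hy2
  have hgain : 4 * y ^ 2 + κ * y ^ 2 * Real.log n ≤ k * m / n * Real.log lam := by
    rw [hloglam]
    have h1 : (k : ℝ) * m / n = k * y := by rw [hy]; ring
    rw [h1]
    have h2 : y ^ 2 / 4 * (β / 2 * Real.log n) ≤ k * y * (β / 2 * Real.log n) := by
      refine mul_le_mul_of_nonneg_right ?_ (by positivity)
      nlinarith
    refine le_trans ?_ h2
    have h3 : 64 ≤ β * Real.log n := by
      rw [div_le_iff₀ hβ0] at hb3
      linarith
    have h4 : κ * Real.log n ≤ β / 16 * Real.log n := mul_le_mul_of_nonneg_right hκβ hlog0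
    have h5 : 4 + κ * Real.log n ≤ β / 8 * Real.log n := by linarith
    calc 4 * y ^ 2 + κ * y ^ 2 * Real.log n = y ^ 2 * (4 + κ * Real.log n) := by ring
      _ ≤ y ^ 2 * (β / 8 * Real.log n) := mul_le_mul_of_nonneg_left h5 (by positivity)
      _ = _ := by ring
  -- the union bound
  have hsub : B ⊆ 𝒞.biUnion fun C => (LL n).filter fun L => m ≤ ((univ.filter
      fun p : Fin n × Fin n => (p.1, p.2, L p.1 p.2) ∈ cells n C).card : ℝ) := by
    intro L hL
    obtain ⟨hLD, H, hH1, hH2, hH3⟩ := hB L hL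
    have hA1 : H.image (enc n) ⊆ range (n ^ 3) := by
      intro x hx
      obtain ⟨t, _, rfl⟩ := mem_image.1 hx
      exact mem_range.2 (enc_lt n t)
    have hA2 : ∀ φ ∈ inj n a b c, ¬ img r q z φ ⊆ H.image (enc n) := by
      intro φ hφ hsubs
      refine hH3 φ hφ fun i => ?_
      have h4 : enc n (tri r q z φ i) ∈ img r q z φ := by
        unfold img
        exact mem_image_of_mem _ (mem_univ i)
      obtain ⟨t, ht, h5⟩ := mem_image.1 (hsubs h4)
      rw [enc_inj n h5] at ht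
      exact ht
    obtain ⟨C, hC, hHC⟩ := hc3 (H.image (enc n)) ⟨hA1, hA2⟩
    rw [mem_biUnion]
    refine ⟨C, hC, mem_filter.2 ⟨mem_LL.2 hLD, hH2.trans ?_⟩⟩
    rw [← card_ent_inter (fun i j => L i j)]
    refine Nat.cast_le.2 (card_le_card fun t ht => ?_)
    rw [mem_inter, mem_cells]
    exact ⟨hH1 ht, hHC (mem_image_of_mem _ ht)⟩
  have hone : ∀ C ∈ 𝒞, (((LL n).filter fun L => m ≤ ((univ.filter
      fun p : Fin n × Fin n => (p.1, p.2, L p.1 p.2) ∈ cells n C).card : ℝ)).card : ℝ) ≤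
      (LL n).card * Real.exp (-(y ^ 2) - κ * y ^ 2 * Real.log n) := by
    intro C hC
    obtain ⟨hCU, hCc⟩ := hc2 C hC
    have h1 := count_V hn1 k hkn (cells n C) lam hlam1 m
    have h2 := he2 (cells n C) (by rw [card_cells hCU]; exact hCc)
    refine h1.trans (mul_le_mul_of_nonneg_left (Real.exp_le_exp.2 ?_) (Nat.cast_nonneg _))
    have h3 : 2 * (k : ℝ) ^ 2 ≤ y ^ 2 := by
      have h4 : (k : ℝ) ^ 2 ≤ (y / 2) ^ 2 := pow_le_pow_left₀ (Nat.cast_nonneg _) hk1 2
      have h5 : (y / 2) ^ 2 = y ^ 2 / 4 := by ring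
      have h6 : 0 ≤ y ^ 2 := sq_nonneg y
      rw [h5] at h4
      exact (mul_le_mul_of_nonneg_left h4 (by norm_num)).trans (by
        clear * - h6
        linarith)
    have h7 : (n : ℝ) + (2 * (k : ℝ) ^ 2 + 2 * n * (1 + Real.log n) ^ 2) +
        Real.exp 1 * (lam - 1) * ((cells n C).card : ℝ) / n - k * m / n * Real.log lam =
        ((n : ℝ) + 2 * n * (1 + Real.log n) ^ 2) + 2 * (k : ℝ) ^ 2 +
        Real.exp 1 * (lam - 1) * ((cells n C).card : ℝ) / n - k * m / n * Real.log lam := by ring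
    rw [h7]
    have h8 := add_le_add (add_le_add he3 h3) h2
    have h9 := sub_le_sub h8 hgain
    refine h9.trans (le_of_eq ?_)
    ring
  calc (B.card : ℝ) ≤ ∑ C ∈ 𝒞, (((LL n).filter fun L => m ≤ ((univ.filter
      fun p : Fin n × Fin n => (p.1, p.2, L p.1 p.2) ∈ cells n C).card : ℝ)).card : ℝ) := by
        exact_mod_cast (card_le_card hsub).trans card_biUnion_le
    _ ≤ ∑ _C ∈ 𝒞, (LL n).card * Real.exp (-(y ^ 2) - κ * y ^ 2 * Real.log n) := sum_le_sum hone
    _ = 𝒞.card * ((LL n).card * Real.exp (-(y ^ 2) - κ * y ^ 2 * Real.log n)) := by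
        rw [sum_const, nsmul_eq_mul]
    _ ≤ Real.exp ((n : ℝ) ^ (2 - θ)) *
        ((LL n).card * Real.exp (-(y ^ 2) - κ * y ^ 2 * Real.log n)) :=
        mul_le_mul_of_nonneg_right hc1 (by positivity)
    _ = (LL n).card * Real.exp ((n : ℝ) ^ (2 - θ) + (-(y ^ 2) - κ * y ^ 2 * Real.log n)) := by
        rw [mul_left_comm, ← Real.exp_add]
    _ ≤ _ := by
        refine mul_le_mul_of_nonneg_left (Real.exp_le_exp.2 ?_) (Nat.cast_nonneg _)
        linarith

end

end Pool.Agent.T2H17.BL
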