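import Mathlib

open Finset

namespace Pool.Agent.T2H17.BL

theorem succ_pow_le_exp_mul (m i : ℕ) (h : i ≤ m) :
    ((m : ℝ) + 1) ^ i ≤ Real.exp 1 * (m : ℝ) ^ i := by
  rcases Nat.eq_zero_or_pos m with hm | hm
  · subst hm
    have : i = 0 := by omega
    subst this
    simp
  · have hm' : (0 : ℝ) < m := by exact_mod_cast hm
    have h1 : ((m : ℝ) + 1) = m * (1 + 1 / m) := by field_simp
    rw [h1, mul_pow, mul_comm]
    refine mul_le_mul_of_nonneg_right ?_ (by positivity)
    calc (1 + 1 / (m : ℝ)) ^ i ≤ (Real.exp (1 / m)) ^ i := by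
          refine pow_le_pow_left₀ (by positivity) ?_ i
          have := Real.add_one_le_exp (1 / (m : ℝ))
          linarith
      _ = Real.exp (i * (1 / m)) := by rw [← Real.exp_nat_mul]
      _ ≤ Real.exp 1 := by
          apply Real.exp_le_exp.mpr
          rw [mul_one_div, div_le_one hm']
          exact_mod_cast h

/-- `(n - j)! ≤ n! (e / n)^j` -/
theorem pow_mul_factorial_le (n : ℕ) : ∀ j : ℕ, j ≤ n →
    (n : ℝ) ^ j * ((n - j).factorial : ℝ) ≤ (n.factorial : ℝ) * Real.exp 1 ^ j := by
  induction n with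
  | zero =>
    intro j hj
    have : j = 0 := by omega
    subst this
    simp
  | succ m ih =>
    intro j hj
    cases j with
    | zero => simp
    | succ i =>
      have hi : i ≤ m := by omega
      have h1 := succ_pow_le_exp_mul m i hi
      have h2 := ih i hi
      have h3 : m + 1 - (i + 1) = m - i := by omega
      rw [h3]
      have h4 : (((m + 1 : ℕ).factorial : ℕ) : ℝ) = ((m : ℝ) + 1) * (m.factorial : ℝ) := by
        rw [Nat.factorial_succ]; push_cast; ring
      rw [h4]
      push_cast
      calc ((m : ℝ) + 1) ^ (i + 1) * ((m - i).factorial : ℝ)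
          = ((m : ℝ) + 1) * ((m - i).factorial : ℝ) * ((m : ℝ) + 1) ^ i := by ring
        _ ≤ ((m : ℝ) + 1) * ((m - i).factorial : ℝ) * (Real.exp 1 * (m : ℝ) ^ i) :=
            mul_le_mul_of_nonneg_left h1 (by positivity)
        _ = ((m : ℝ) + 1) * Real.exp 1 * ((m : ℝ) ^ i * ((m - i).factorial : ℝ)) := by ring
        _ ≤ ((m : ℝ) + 1) * Real.exp 1 * ((m.factorial : ℝ) * Real.exp 1 ^ i) :=
            mul_le_mul_of_nonneg_left h2 (by positivity)
        _ = ((m : ℝ) + 1) * (m.factorial : ℝ) * Real.exp 1 ^ (i + 1) := by ring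

/-- the permutations with prescribed values on `J` -/
theorem card_perm_prescribed {n : ℕ} (J : Finset (Fin n)) (σ₀ : Equiv.Perm (Fin n)) :
    (univ.filter fun σ : Equiv.Perm (Fin n) => ∀ x ∈ J, σ x = σ₀ x).card ≤
      (n - J.card).factorial := by
  classical
  have h1 : Fintype.card {f : Equiv.Perm (Fin n) // ∀ a, ¬ (a ∉ J) → f a = a} =
      (n - J.card).factorial := by
    rw [← Fintype.card_congr (Equiv.Perm.subtypeEquivSubtypePerm (fun x : Fin n => x ∉ J)),
      Fintype.card_perm]
    congr 1
    rw [Fintype.card_subtype_compl]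
    simp
  rw [← h1, ← Fintype.card_subtype]
  refine Fintype.card_le_of_injective
    (fun σ => ⟨σ₀⁻¹ * σ.1, fun a ha => ?_⟩) ?_
  · have := σ.2 a (not_not.mp ha)
    rw [Equiv.Perm.mul_apply, this]
    simp
  · intro σ τ h
    have h2 := congrArg Subtype.val h
    exact Subtype.ext (mul_left_cancel h2)

theorem card_perm_in {n : ℕ} (W : Finset (Fin n × Fin n)) (J : Finset (Fin n)) :
    (univ.filter fun σ : Equiv.Perm (Fin n) => ∀ x ∈ J, (x, σ x) ∈ W).card ≤
      (∏ x ∈ J, (univ.filter fun y : Fin n => (x, y) ∈ W).card) * (n - J.card).factorial := by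
  classical
  set t : Finset (Fin n → Fin n) := Fintype.piFinset
    (fun x => if x ∈ J then univ.filter (fun y : Fin n => (x, y) ∈ W) else {x}) with ht
  have hcard : t.card = ∏ x ∈ J, (univ.filter fun y : Fin n => (x, y) ∈ W).card := by
    rw [ht, Fintype.card_piFinset]
    rw [← Finset.prod_subset (Finset.subset_univ J)]
    · exact Finset.prod_congr rfl fun x hx => by rw [if_pos hx]
    · intro x _ hx
      rw [if_neg hx]
      simp
  rw [← hcard, mul_comm]
  refine Finset.card_le_mul_card_image_of_maps_to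
    (f := fun (σ : Equiv.Perm (Fin n)) => fun x => if x ∈ J then σ x else x) ?_ _ ?_
  · intro σ hσ
    simp only [mem_filter, mem_univ, true_and] at hσ
    rw [ht, Fintype.mem_piFinset]
    intro x
    by_cases hx : x ∈ J
    · simp [hx, hσ x hx]
    · simp [hx]
  · intro g hg
    rcases (((univ.filter fun σ : Equiv.Perm (Fin n) => ∀ x ∈ J, (x, σ x) ∈ W).filter
      fun σ => (fun x => if x ∈ J then σ x else x) = g)).eq_empty_or_nonempty with h | ⟨σ₀, hσ₀⟩
    · rw [h]; simp
    · refine le_trans (Finset.card_le_card ?_) (card_perm_prescribed J σ₀)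
      intro σ hσ
      simp only [mem_filter, mem_univ, true_and] at hσ hσ₀ ⊢
      intro x hx
      have h1 := congrFun (hσ.2.trans hσ₀.2.symm) x
      simpa [hx] using h1

/-- exponential moment of the number of points of a set on the graph of a random permutation -/
theorem perm_moment {n : ℕ} (hn : 0 < n) (W : Finset (Fin n × Fin n)) (lam : ℝ) (hlam : 1 ≤ lam) :
    ∑ σ : Equiv.Perm (Fin n), lam ^ (univ.filter fun x : Fin n => (x, σ x) ∈ W).card ≤
      (n.factorial : ℝ) * Real.exp (Real.exp 1 * (lam - 1) * W.card / n) := by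
  classical
  have hn' : (0 : ℝ) < n := by exact_mod_cast hn
  set w : Fin n → ℕ := fun x => (univ.filter fun y : Fin n => (x, y) ∈ W).card with hw
  have hexp : ∀ σ : Equiv.Perm (Fin n),
      lam ^ (univ.filter fun x : Fin n => (x, σ x) ∈ W).card =
        ∑ J ∈ (univ : Finset (Fin n)).powerset,
          (lam - 1) ^ J.card * (if ∀ x ∈ J, (x, σ x) ∈ W then 1 else 0) := by
    intro σ
    have h1 : lam ^ (univ.filter fun x : Fin n => (x, σ x) ∈ W).card =
        ∏ x : Fin n, (1 + if (x, σ x) ∈ W then (lam - 1) else 0) := by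
      rw [← Finset.prod_const, Finset.prod_filter]
      refine Finset.prod_congr rfl fun x _ => ?_
      split_ifs <;> ring
    rw [h1, Finset.prod_one_add]
    refine Finset.sum_congr rfl fun J _ => ?_
    split_ifs with hJ
    · rw [Finset.prod_congr rfl (g := fun _ => lam - 1) (fun x hx => if_pos (hJ x hx)),
        Finset.prod_const, mul_one]
    · push Not at hJ
      obtain ⟨x, hx, hx2⟩ := hJ
      rw [Finset.prod_eq_zero hx (if_neg hx2), mul_zero]
  have hsum : ∑ σ : Equiv.Perm (Fin n), lam ^ (univ.filter fun x : Fin n => (x, σ x) ∈ W).card =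
      ∑ J ∈ (univ : Finset (Fin n)).powerset, (lam - 1) ^ J.card *
        ((univ.filter fun σ : Equiv.Perm (Fin n) => ∀ x ∈ J, (x, σ x) ∈ W).card : ℝ) := by
    rw [Finset.sum_congr rfl fun σ _ => hexp σ, Finset.sum_comm]
    refine Finset.sum_congr rfl fun J _ => ?_
    rw [← Finset.mul_sum, Finset.sum_boole]
  rw [hsum]
  have hterm : ∀ J ∈ (univ : Finset (Fin n)).powerset, (lam - 1) ^ J.card *
      ((univ.filter fun σ : Equiv.Perm (Fin n) => ∀ x ∈ J, (x, σ x) ∈ W).card : ℝ) ≤
      (n.factorial : ℝ) * ∏ x ∈ J, (Real.exp 1 * (lam - 1) * w x / n) := by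
    intro J _
    have h1 := card_perm_in W J
    have hJn : J.card ≤ n := by
      have := Finset.card_le_univ J
      simpa using this
    have h2 := pow_mul_factorial_le n J.card hJn
    have h3 : ((univ.filter fun σ : Equiv.Perm (Fin n) => ∀ x ∈ J, (x, σ x) ∈ W).card : ℝ) ≤
        (∏ x ∈ J, (w x : ℝ)) * ((n - J.card).factorial : ℝ) := by
      have : ((univ.filter fun σ : Equiv.Perm (Fin n) => ∀ x ∈ J, (x, σ x) ∈ W).card : ℝ) ≤
        (((∏ x ∈ J, w x) * (n - J.card).factorial : ℕ) : ℝ) := by exact_mod_cast h1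
      push_cast at this
      exact this
    have h4 : ((n - J.card).factorial : ℝ) ≤ (n.factorial : ℝ) * (Real.exp 1 / n) ^ J.card := by
      rw [div_pow, ← mul_div_assoc, le_div_iff₀ (by positivity), mul_comm]
      exact h2
    have hl : (0 : ℝ) ≤ (lam - 1) ^ J.card := pow_nonneg (by linarith) _
    have hp : (0 : ℝ) ≤ ∏ x ∈ J, (w x : ℝ) := Finset.prod_nonneg fun x _ => by positivity
    calc (lam - 1) ^ J.card *
          ((univ.filter fun σ : Equiv.Perm (Fin n) => ∀ x ∈ J, (x, σ x) ∈ W).card : ℝ)
        ≤ (lam - 1) ^ J.card * ((∏ x ∈ J, (w x : ℝ)) *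
            ((n.factorial : ℝ) * (Real.exp 1 / n) ^ J.card)) :=
          mul_le_mul_of_nonneg_left (h3.trans (mul_le_mul_of_nonneg_left h4 hp)) hl
      _ = (n.factorial : ℝ) * ∏ x ∈ J, (Real.exp 1 * (lam - 1) * w x / n) := by
          have h5 : ∏ x ∈ J, (Real.exp 1 * (lam - 1) * w x / n) =
              (∏ _x ∈ J, (Real.exp 1 / n * (lam - 1))) * ∏ x ∈ J, (w x : ℝ) := by
            rw [← Finset.prod_mul_distrib]
            refine Finset.prod_congr rfl fun x _ => ?_
            ring
          rw [h5, Finset.prod_const, mul_pow]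
          ring
  refine (Finset.sum_le_sum hterm).trans ?_
  rw [← Finset.mul_sum, ← Finset.prod_one_add]
  refine mul_le_mul_of_nonneg_left ?_ (by positivity)
  have hWc : (W.card : ℝ) = ∑ x : Fin n, (w x : ℝ) := by
    have h1 : W.card = ∑ x : Fin n, w x := by
      rw [Finset.card_eq_sum_card_fiberwise (f := fun p : Fin n × Fin n => p.1) (t := univ)
        (fun _ _ => by simp)]
      refine Finset.sum_congr rfl fun x _ => ?_
      simp only [hw]
      refine Finset.card_bij (fun p _ => p.2) ?_ ?_ ?_
      · intro p hp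
        simp only [mem_filter] at hp
        simp only [mem_filter, mem_univ, true_and]
        rw [← hp.2]
        exact hp.1
      · intro p hp q hq h
        simp only [mem_filter] at hp hq
        exact Prod.ext (hp.2.trans hq.2.symm) h
      · intro y hy
        simp only [mem_filter, mem_univ, true_and] at hy
        exact ⟨(x, y), by simp [hy], rfl⟩
    rw [h1]; push_cast; rfl
  calc ∏ x : Fin n, (1 + Real.exp 1 * (lam - 1) * w x / n)
      ≤ ∏ x : Fin n, Real.exp (Real.exp 1 * (lam - 1) * w x / n) := by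
        refine Finset.prod_le_prod (fun x _ => ?_) fun x _ => ?_
        · have : 0 ≤ Real.exp 1 * (lam - 1) * w x / n := by
            have : 0 ≤ lam - 1 := by linarith
            positivity
          linarith
        · have := Real.add_one_le_exp (Real.exp 1 * (lam - 1) * w x / n)
          linarith
    _ = Real.exp (∑ x : Fin n, Real.exp 1 * (lam - 1) * w x / n) := by rw [Real.exp_sum]
    _ = Real.exp (Real.exp 1 * (lam - 1) * W.card / n) := by
        congr 1
        rw [hWc, Finset.mul_sum, Finset.sum_div]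

end Pool.Agent.T2H17.BL
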