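import Mathlib

/-!
# Supersaturation for tripartite configurations and counts of maps
-/

set_option autoImplicit false

open Finset

namespace Pool.Agent.T2H17.BL

/-- power mean -/
theorem pm {ι : Type*} [Fintype ι] (f : ι → ℝ) (hf : ∀ i, 0 ≤ f i) (N : ℝ)
    (hN : (Fintype.card ι : ℝ) = N) (x : ℝ) (hx0 : 0 ≤ x) (hx : x * N ≤ ∑ i, f i)
    (k : ℕ) : x ^ k * N ≤ ∑ i, f i ^ k := by
  rcases Nat.eq_zero_or_pos k with rfl | hk
  · simp [hN]
  obtain ⟨m, rfl⟩ : ∃ m, k = m + 1 := ⟨k - 1, by omega⟩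
  have hN0 : 0 ≤ N := by rw [← hN]; positivity
  rcases hN0.eq_or_lt with h0 | h0
  · rw [← h0, mul_zero]
    exact sum_nonneg fun i _ => pow_nonneg (hf i) _
  have h := pow_sum_div_card_le_sum_pow (s := univ) (f := f) (fun i _ => hf i) m
  rw [card_univ, hN] at h
  refine le_trans ?_ h
  rw [le_div_iff₀ (by positivity)]
  calc x ^ (m + 1) * N * N ^ m = (x * N) ^ (m + 1) := by ring
    _ ≤ _ := pow_le_pow_left₀ (by positivity) hx _

/-- the maps of a configuration with `a` rows, `b` columns, `c` symbols -/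
abbrev M (n a b c : ℕ) : Type := (Fin a → Fin n) × (Fin b → Fin n) × (Fin c → Fin n)

/-- the cells -/
abbrev T (n : ℕ) : Type := Fin n × Fin n × Fin n

/-- **Supersaturation** -/
theorem super {n : ℕ} (hn : 0 < n) (a b c : ℕ) (S : Finset (T n)) (x : ℝ) (hx0 : 0 ≤ x)
    (hx : x * n ^ 3 ≤ S.card) :
    x ^ (a * b * c) * n ^ (a + b + c) ≤
      ((univ.filter fun φ : M n a b c => ∀ i j k, (φ.1 i, φ.2.1 j, φ.2.2 k) ∈ S).card : ℝ) := by
  classical
  have hn0 : (0 : ℝ) < n := by exact_mod_cast hn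
  set I : Fin n → Fin n → Fin n → ℝ := fun x y z => if (x, y, z) ∈ S then 1 else 0 with hI
  have hI0 : ∀ x y z, 0 ≤ I x y z := fun x y z => by
    rw [hI]; dsimp only; split_ifs <;> norm_num
  have h0 : ∑ p : Fin n × Fin n, ∑ x, I x p.1 p.2 = S.card := by
    have h1 : (S.card : ℝ) = ∑ t : T n, if t ∈ S then (1 : ℝ) else 0 := by
      rw [sum_boole, filter_mem_eq_inter, univ_inter]
    rw [h1, sum_comm, Fintype.sum_prod_type]
  -- first step
  have h1 : (x * n) ^ a * (n : ℝ) ^ 2 ≤ ∑ p : Fin n × Fin n, (∑ x, I x p.1 p.2) ^ a := by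
    refine pm _ (fun p => sum_nonneg fun x _ => hI0 _ _ _) _ ?_ _ (by positivity) ?_ a
    · rw [Fintype.card_prod, Fintype.card_fin]; push_cast; ring
    · rw [h0]; calc x * n * (n : ℝ) ^ 2 = x * n ^ 3 := by ring
        _ ≤ _ := hx
  have h1' : ∑ p : Fin n × Fin n, (∑ x, I x p.1 p.2) ^ a =
      ∑ p : (Fin a → Fin n) × Fin n, ∑ y, ∏ i, I (p.1 i) y p.2 := by
    simp_rw [Fintype.sum_pow]
    rw [Fintype.sum_prod_type, Fintype.sum_prod_type]
    dsimp only
    rw [sum_comm]
    simp_rw [sum_comm (s := (univ : Finset (Fin n))) (t := (univ : Finset (Fin a → Fin n)))]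
  have h2 : (x ^ a * n) ^ b * (n : ℝ) ^ (a + 1) ≤
      ∑ p : (Fin a → Fin n) × Fin n, (∑ y, ∏ i, I (p.1 i) y p.2) ^ b := by
    refine pm _ (fun p => sum_nonneg fun y _ => prod_nonneg fun i _ => hI0 _ _ _) _ ?_ _
      (by positivity) ?_ b
    · rw [Fintype.card_prod, Fintype.card_fin, Fintype.card_fun, Fintype.card_fin, Fintype.card_fin]
      push_cast; ring
    · rw [← h1']; calc x ^ a * n * (n : ℝ) ^ (a + 1) = (x * n) ^ a * (n : ℝ) ^ 2 := by ring
        _ ≤ _ := h1
  have h2' : ∑ p : (Fin a → Fin n) × Fin n, (∑ y, ∏ i, I (p.1 i) y p.2) ^ b =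
      ∑ p : (Fin a → Fin n) × (Fin b → Fin n), ∑ z, ∏ j, ∏ i, I (p.1 i) (p.2 j) z := by
    simp_rw [Fintype.sum_pow]
    rw [Fintype.sum_prod_type, Fintype.sum_prod_type]
    refine sum_congr rfl fun α _ => ?_
    rw [sum_comm]
  have h3 : (x ^ (a * b) * n) ^ c * (n : ℝ) ^ (a + b) ≤
      ∑ p : (Fin a → Fin n) × (Fin b → Fin n), (∑ z, ∏ j, ∏ i, I (p.1 i) (p.2 j) z) ^ c := by
    refine pm _ (fun p => sum_nonneg fun y _ => prod_nonneg fun j _ => prod_nonneg fun i _ =>
      hI0 _ _ _) _ ?_ _ (by positivity) ?_ c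
    · rw [Fintype.card_prod, Fintype.card_fun, Fintype.card_fun, Fintype.card_fin,
        Fintype.card_fin, Fintype.card_fin]
      push_cast; ring
    · rw [← h2']
      have h5 : x ^ (a * b) * n * (n : ℝ) ^ (a + b) = (x ^ a * n) ^ b * (n : ℝ) ^ (a + 1) := by
        rw [mul_pow, ← pow_mul]
        ring
      rw [h5]
      exact h2
  have h3' : ∑ p : (Fin a → Fin n) × (Fin b → Fin n), (∑ z, ∏ j, ∏ i, I (p.1 i) (p.2 j) z) ^ c =
      ((univ.filter fun φ : M n a b c => ∀ i j k, (φ.1 i, φ.2.1 j, φ.2.2 k) ∈ S).card : ℝ) := by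
    simp_rw [Fintype.sum_pow]
    rw [← sum_boole, Fintype.sum_prod_type, Fintype.sum_prod_type]
    refine sum_congr rfl fun α _ => ?_
    rw [Fintype.sum_prod_type]
    refine sum_congr rfl fun β _ => sum_congr rfl fun γ _ => ?_
    dsimp only
    by_cases h : ∀ i j k, (α i, β j, γ k) ∈ S
    · rw [if_pos h]
      refine prod_eq_one fun k _ => prod_eq_one fun j _ => prod_eq_one fun i _ => ?_
      rw [hI]; exact if_pos (h i j k)
    · rw [if_neg h]
      push Not at h
      obtain ⟨i, j, k, h⟩ := h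
      refine prod_eq_zero (mem_univ k) (prod_eq_zero (mem_univ j) (prod_eq_zero (mem_univ i) ?_))
      rw [hI]; exact if_neg h
  rw [← h3']
  refine le_trans (le_of_eq ?_) h3
  rw [mul_pow, ← pow_mul]; ring

/-- number of maps with prescribed values on `R` -/
theorem card_agree {n a : ℕ} (R : Finset (Fin a)) (f : Fin a → Fin n) :
    (univ.filter fun g : Fin a → Fin n => ∀ i ∈ R, g i = f i).card = n ^ (a - R.card) := by
  classical
  have h : (univ.filter fun g : Fin a → Fin n => ∀ i ∈ R, g i = f i) =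
      Fintype.piFinset fun i => if i ∈ R then {f i} else univ := by
    ext g
    simp only [mem_filter, mem_univ, true_and, Fintype.mem_piFinset]
    refine forall_congr' fun i => ?_
    by_cases hi : i ∈ R <;> simp [hi]
  rw [h, Fintype.card_piFinset]
  have h1 : ∀ i, (if i ∈ R then ({f i} : Finset (Fin n)) else univ).card =
      if i ∈ R then 1 else n := by
    intro i
    split_ifs <;> simp
  simp_rw [h1]
  rw [prod_ite, prod_const_one, one_mul, prod_const]
  congr 1
  rw [filter_not, filter_mem_eq_inter, univ_inter, card_sdiff_of_subset (subset_univ _),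
    card_univ, Fintype.card_fin]

/-- few maps are not injective -/
theorem card_not_inj (n a : ℕ) : n * (univ.filter fun g : Fin a → Fin n =>
    ¬ Function.Injective g).card ≤ a ^ 2 * n ^ a := by
  classical
  have h : (univ.filter fun g : Fin a → Fin n => ¬ Function.Injective g) ⊆
      (univ.filter fun p : Fin a × Fin a => p.1 ≠ p.2).biUnion
        fun p => univ.filter fun g : Fin a → Fin n => g p.1 = g p.2 := by
    intro g hg
    rw [mem_filter] at hg
    have hg2 := hg.2
    unfold Function.Injective at hg2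
    push Not at hg2
    obtain ⟨i, j, h1, h2⟩ := hg2
    rw [mem_biUnion]
    exact ⟨(i, j), mem_filter.2 ⟨mem_univ _, h2⟩, mem_filter.2 ⟨mem_univ _, h1⟩⟩
  have h2 : ∀ p ∈ (univ.filter fun p : Fin a × Fin a => p.1 ≠ p.2),
      n * (univ.filter fun g : Fin a → Fin n => g p.1 = g p.2).card ≤ n ^ a := by
    intro p hp
    have hp2 : p.1 ≠ p.2 := (mem_filter.1 hp).2
    have h3 : Fintype.card (Fin n) * (univ.filter fun g : Fin a → Fin n => g p.1 = g p.2).card =
        ((univ : Finset (Fin n)) ×ˢ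
          (univ.filter fun g : Fin a → Fin n => g p.1 = g p.2)).card := by
      rw [card_product, card_univ]
    rw [Fintype.card_fin] at h3
    rw [h3]
    have h4 : Fintype.card (Fin a → Fin n) = n ^ a := by simp
    rw [← h4, ← card_univ]
    refine card_le_card_of_injOn (fun q => Function.update q.2 p.1 q.1) (fun _ _ => mem_coe.2 (mem_univ _)) ?_
    rintro ⟨x, g⟩ hg ⟨y, g'⟩ hg' hxy
    simp only [coe_product, coe_univ, coe_filter, Set.mem_prod, Set.mem_univ, true_and,
      Set.mem_setOf_eq, mem_univ] at hg hg'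
    dsimp only at hxy
    have h5 : x = y := by
      have := congrFun hxy p.1
      simpa using this
    subst h5
    have h6 : ∀ i, i ≠ p.1 → g i = g' i := by
      intro i hi
      have := congrFun hxy i
      simpa [Function.update_of_ne hi] using this
    have h7 : g = g' := by
      funext i
      by_cases hi : i = p.1
      · rw [hi, hg, hg']
        exact h6 _ hp2.symm
      · exact h6 i hi
    rw [h7]
  calc n * (univ.filter fun g : Fin a → Fin n => ¬ Function.Injective g).card
      ≤ n * ∑ p ∈ (univ.filter fun p : Fin a × Fin a => p.1 ≠ p.2),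
          (univ.filter fun g : Fin a → Fin n => g p.1 = g p.2).card :=
        Nat.mul_le_mul_left _ ((card_le_card h).trans card_biUnion_le)
    _ = ∑ p ∈ (univ.filter fun p : Fin a × Fin a => p.1 ≠ p.2),
          n * (univ.filter fun g : Fin a → Fin n => g p.1 = g p.2).card := by rw [mul_sum]
    _ ≤ ∑ p ∈ (univ.filter fun p : Fin a × Fin a => p.1 ≠ p.2), n ^ a := sum_le_sum h2
    _ = (univ.filter fun p : Fin a × Fin a => p.1 ≠ p.2).card * n ^ a := by
        rw [sum_const, smul_eq_mul]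
    _ ≤ a ^ 2 * n ^ a := by
        refine Nat.mul_le_mul_right _ ?_
        refine (card_le_univ _).trans (le_of_eq ?_)
        rw [Fintype.card_prod, Fintype.card_fin, sq]

/-- the injective maps -/
def inj (n a b c : ℕ) : Finset (M n a b c) := by
  classical
  exact univ.filter fun φ => Function.Injective φ.1 ∧ Function.Injective φ.2.1 ∧
    Function.Injective φ.2.2

theorem mem_inj {n a b c : ℕ} {φ : M n a b c} : φ ∈ inj n a b c ↔ Function.Injective φ.1 ∧
    Function.Injective φ.2.1 ∧ Function.Injective φ.2.2 := by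
  unfold inj
  simp

theorem card_inj_compl (n a b c : ℕ) : n * (univ.filter fun φ : M n a b c =>
    φ ∉ inj n a b c).card ≤ (a ^ 2 + b ^ 2 + c ^ 2) * n ^ (a + b + c) := by
  classical
  set A := univ.filter fun g : Fin a → Fin n => ¬ Function.Injective g with hA
  set B := univ.filter fun g : Fin b → Fin n => ¬ Function.Injective g with hB
  set C := univ.filter fun g : Fin c → Fin n => ¬ Function.Injective g with hC
  have h : (univ.filter fun φ : M n a b c => φ ∉ inj n a b c) ⊆
      (A ×ˢ (univ ×ˢ univ)) ∪ ((univ ×ˢ (B ×ˢ univ)) ∪ (univ ×ˢ (univ ×ˢ C))) := by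
    intro φ hφ
    rw [mem_filter, mem_inj] at hφ
    simp only [mem_union, mem_product, mem_univ, true_and, and_true, hA, hB, hC, mem_filter]
    tauto
  have h1 := card_le_card h
  have h2 : ((A ×ˢ ((univ : Finset (Fin b → Fin n)) ×ˢ (univ : Finset (Fin c → Fin n)))) ∪
      ((univ ×ˢ (B ×ˢ univ)) ∪ (univ ×ˢ (univ ×ˢ C)))).card ≤
      A.card * (n ^ b * n ^ c) + (n ^ a * (B.card * n ^ c) + n ^ a * (n ^ b * C.card)) := by
    refine (card_union_le _ _).trans (add_le_add ?_ ((card_union_le _ _).trans (add_le_add ?_ ?_)))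
    · simp [card_product]
    · simp [card_product]
    · simp [card_product]
  have hA1 := card_not_inj n a
  have hB1 := card_not_inj n b
  have hC1 := card_not_inj n c
  rw [← hA] at hA1
  rw [← hB] at hB1
  rw [← hC] at hC1
  calc n * (univ.filter fun φ : M n a b c => φ ∉ inj n a b c).card
      ≤ n * (A.card * (n ^ b * n ^ c) + (n ^ a * (B.card * n ^ c) + n ^ a * (n ^ b * C.card))) :=
        Nat.mul_le_mul_left _ (h1.trans h2)
    _ = (n * A.card) * (n ^ b * n ^ c) + ((n * B.card) * (n ^ a * n ^ c) +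
          (n * C.card) * (n ^ a * n ^ b)) := by ring
    _ ≤ (a ^ 2 * n ^ a) * (n ^ b * n ^ c) + ((b ^ 2 * n ^ b) * (n ^ a * n ^ c) +
          (c ^ 2 * n ^ c) * (n ^ a * n ^ b)) := by gcongr
    _ = _ := by ring

end Pool.Agent.T2H17.BL
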