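import Pool.Agent.T2H17.BL.An
import Pool.Agent.T2H17.BL.PermM
import Pool.Agent.T2H17.BL.Super

/-!
# Latin squares with many entries in a small set
-/

set_option autoImplicit false

open Finset
open Equiv (Perm)

namespace Pool.Agent.T2H17.BL

/-- the Latin squares of order `n`, given by their rows -/
noncomputable def LL (n : ℕ) : Finset (Fin n → Perm (Fin n)) := by
  classical
  exact univ.filter fun L => Disc L

theorem mem_LL {n : ℕ} {L : Fin n → Perm (Fin n)} : L ∈ LL n ↔ Disc L := by
  classical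
  unfold LL
  simp

theorem LL_ge (n : ℕ) :
    Real.exp (n * Real.log (n.factorial : ℝ) - n ^ 2) ≤ ((LL n).card : ℝ) := by
  classical
  set σ₀ : Fin 0 → Perm (Fin n) := fun i => i.elim0
  have h0 : Disc σ₀ := fun i => i.elim0
  have h1 := card_Ex_ge h0 n (by simp)
  have h2 : Ex σ₀ (Fin n) = LL n := by
    ext L
    rw [mem_Ex, mem_LL]
    constructor
    · intro h
      exact h.comp (f := Sum.inr) Sum.inr_injective
    · rintro h (i | i) (j | j) hne x
      · exact i.elim0
      · exact i.elim0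
      · exact j.elim0
      · exact h i j (fun h1 => hne (by rw [h1])) x
  rw [h2] at h1
  refine le_trans (le_of_eq ?_) h1
  rw [prod_mul_distrib, prod_const, card_range, prod_pow]
  have h3 : ∏ t ∈ range n, ((n - (Fintype.card (Fin 0) + t) : ℕ) : ℝ) = (n.factorial : ℝ) := by
    rw [← Finset.prod_range_add_one_eq_factorial, ← Finset.prod_range_reflect]
    push_cast
    refine prod_congr rfl fun t ht => ?_
    have ht' := mem_range.1 ht
    rw [Fintype.card_fin, zero_add]
    have h4 : n - (n - 1 - t) = t + 1 := by omega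
    rw [h4]
    push_cast
    rfl
  rw [h3, ← Real.exp_nat_mul, sub_eq_add_neg, Real.exp_add, Real.exp_nat_mul,
    Real.exp_log (by positivity)]
  congr 2
  ring

theorem restr {n : ℕ} (R : Finset (Fin n)) (B : Finset ({x // x ∈ R} → Perm (Fin n))) :
    (((LL n).filter fun L => (fun i : {x // x ∈ R} => L i.1) ∈ B).card : ℝ) ≤
      B.card * Real.exp (n * ∑ d ∈ range (n - R.card), gg (d + 1)) := by
  classical
  have hcR : Fintype.card {x // x ∈ R} = R.card := Fintype.card_coe R
  have hcRc : Fintype.card {x // x ∉ R} = n - R.card := by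
    rw [Fintype.card_subtype_compl, Fintype.card_fin, Fintype.card_coe]
  have h1 : ∀ σ : {x // x ∈ R} → Perm (Fin n), Disc σ →
      ((Ex σ {x // x ∉ R}).card : ℝ) ≤ Real.exp (n * ∑ d ∈ range (n - R.card), gg (d + 1)) := by
    intro σ hσ
    rw [card_Ex_congr (Fintype.equivFinOfCardEq hcRc)]
    refine (card_Ex_le hσ _).trans (le_of_eq ?_)
    congr 2
    rw [hcR, ← Finset.sum_range_reflect]
    refine sum_congr rfl fun t ht => ?_
    have ht' := mem_range.1 ht
    congr 1
    omega
  have h2 : ((LL n).filter fun L => (fun i : {x // x ∈ R} => L i.1) ∈ B).card ≤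
      ((B.filter fun σ => Disc σ).sigma fun σ => Ex σ {x // x ∉ R}).card := by
    refine card_le_card_of_injOn (fun L => ⟨fun i => L i.1, fun i => L i.1⟩) ?_ ?_
    · intro L hL
      rw [mem_coe, mem_filter, mem_LL] at hL
      rw [mem_coe, mem_sigma, mem_filter, mem_Ex]
      refine ⟨⟨hL.2, hL.1.comp Subtype.val_injective⟩, ?_⟩
      have h3 := hL.1.comp (f := Sum.elim (fun i : {x // x ∈ R} => i.1)
        (fun i : {x // x ∉ R} => i.1)) ?_
      · convert h3 using 1
        funext i
        rcases i with i | i <;> rfl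
      · rintro (i | i) (j | j) hij
        · simp only [Sum.elim_inl] at hij
          rw [Subtype.ext hij]
        · simp only [Sum.elim_inl, Sum.elim_inr] at hij
          exact absurd (hij ▸ i.2) j.2
        · simp only [Sum.elim_inl, Sum.elim_inr] at hij
          exact absurd (hij ▸ j.2) i.2
        · simp only [Sum.elim_inr] at hij
          rw [Subtype.ext hij]
    · intro L _ L' _ h
      simp only [Sigma.mk.injEq, heq_eq_eq] at h
      funext i
      by_cases hi : i ∈ R
      · exact congrFun h.1 ⟨i, hi⟩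
      · exact congrFun h.2 ⟨i, hi⟩
  rw [card_sigma] at h2
  calc (((LL n).filter fun L => (fun i : {x // x ∈ R} => L i.1) ∈ B).card : ℝ)
      ≤ ∑ σ ∈ B.filter (fun σ => Disc σ), ((Ex σ {x // x ∉ R}).card : ℝ) := by exact_mod_cast h2
    _ ≤ ∑ _σ ∈ B.filter (fun σ => Disc σ),
          Real.exp (n * ∑ d ∈ range (n - R.card), gg (d + 1)) :=
        sum_le_sum fun σ hσ => h1 σ (mem_filter.1 hσ).2
    _ = ((B.filter fun σ => Disc σ).card : ℝ) *
          Real.exp (n * ∑ d ∈ range (n - R.card), gg (d + 1)) := by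
        rw [sum_const, nsmul_eq_mul]
    _ ≤ _ := by
        refine mul_le_mul_of_nonneg_right ?_ (Real.exp_nonneg _)
        exact_mod_cast card_filter_le _ _

/-- number of tuples of permutations with many points in `V` -/
theorem tuple_count {n : ℕ} (hn : 0 < n) (R : Finset (Fin n)) (V : Finset (T n)) (lam : ℝ)
    (hlam : 1 ≤ lam) (m : ℝ) :
    ((univ.filter fun σ : {x // x ∈ R} → Perm (Fin n) =>
      m ≤ ((∑ i, (univ.filter fun x => (i.1, x, σ i x) ∈ V).card : ℕ) : ℝ)).card : ℝ) *
      Real.exp (m * Real.log lam) ≤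
      (n.factorial : ℝ) ^ R.card * Real.exp (Real.exp 1 * (lam - 1) * V.card / n) := by
  classical
  have hn0 : (0 : ℝ) < n := by exact_mod_cast hn
  have hl0 : 0 < lam := by linarith
  have hlog : 0 ≤ Real.log lam := Real.log_nonneg hlam
  have he : 0 < Real.exp 1 := Real.exp_pos _
  set W : Fin n → Finset (Fin n × Fin n) := fun i => univ.filter fun p => (i, p.1, p.2) ∈ V with hW
  have hcW : ∀ (i : Fin n) (τ : Perm (Fin n)), (univ.filter fun x : Fin n => (x, τ x) ∈ W i).card =
      (univ.filter fun x => (i, x, τ x) ∈ V).card := by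
    intro i τ
    congr 1
    ext x
    simp [hW]
  have h1 : ∑ σ : {x // x ∈ R} → Perm (Fin n),
      lam ^ (∑ i, (univ.filter fun x => (i.1, x, σ i x) ∈ V).card) =
      ∏ i : {x // x ∈ R}, ∑ τ : Perm (Fin n), lam ^ (univ.filter fun x => (i.1, x, τ x) ∈ V).card := by
    rw [prod_univ_sum, Fintype.piFinset_univ]
    refine sum_congr rfl fun σ _ => ?_
    rw [prod_pow_eq_pow_sum]
  have h2 : ∏ i : {x // x ∈ R}, ∑ τ : Perm (Fin n),
      lam ^ (univ.filter fun x => (i.1, x, τ x) ∈ V).card ≤
      ∏ i : {x // x ∈ R}, ((n.factorial : ℝ) *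
        Real.exp (Real.exp 1 * (lam - 1) * (W i.1).card / n)) := by
    refine prod_le_prod (fun i _ => sum_nonneg fun τ _ => by positivity) fun i _ => ?_
    have h3 := perm_moment hn (W i.1) lam hlam
    simp_rw [hcW] at h3
    exact h3
  have h3 : ∏ i : {x // x ∈ R}, ((n.factorial : ℝ) *
        Real.exp (Real.exp 1 * (lam - 1) * (W i.1).card / n)) ≤
      (n.factorial : ℝ) ^ R.card * Real.exp (Real.exp 1 * (lam - 1) * V.card / n) := by
    rw [prod_mul_distrib, prod_const, card_univ, Fintype.card_coe, ← Real.exp_sum]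
    refine mul_le_mul_of_nonneg_left (Real.exp_le_exp.2 ?_) (by positivity)
    have h4 : ∑ i : {x // x ∈ R}, Real.exp 1 * (lam - 1) * ((W i.1).card : ℝ) / n =
        Real.exp 1 * (lam - 1) * (∑ i : {x // x ∈ R}, ((W i.1).card : ℝ)) / n := by
      rw [mul_sum, sum_div]
    rw [h4]
    refine div_le_div_of_nonneg_right ?_ hn0.le
    refine mul_le_mul_of_nonneg_left ?_ (mul_nonneg he.le (by linarith))
    have h5 : ∑ i : {x // x ∈ R}, ((W i.1).card : ℝ) = ∑ i ∈ R, ((W i).card : ℝ) :=
      sum_coe_sort R fun i => ((W i).card : ℝ)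
    rw [h5]
    have h6 : ∑ i ∈ R, (W i).card ≤ V.card := by
      have h7 : ∑ i ∈ R, (W i).card ≤ ∑ i, (W i).card :=
        sum_le_sum_of_subset (subset_univ _)
      refine h7.trans (le_of_eq ?_)
      rw [← card_sigma]
      refine card_bij (fun p _ => (p.1, p.2.1, p.2.2)) ?_ ?_ ?_
      · rintro ⟨i, p⟩ hp
        rw [mem_sigma, hW, mem_filter] at hp
        exact hp.2.2
      · rintro ⟨i, p⟩ _ ⟨j, p'⟩ _ h
        simp only [Prod.mk.injEq] at h
        obtain ⟨rfl, h8, h9⟩ := h
        have : p = p' := Prod.ext h8 h9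
        rw [this]
      · rintro ⟨i, x, y⟩ h
        refine ⟨⟨i, (x, y)⟩, ?_, rfl⟩
        rw [mem_sigma, hW, mem_filter]
        exact ⟨mem_univ _, mem_univ _, h⟩
    exact_mod_cast h6
  refine le_trans ?_ (h1.le.trans (h2.trans h3))
  rw [← nsmul_eq_mul, ← sum_const]
  calc _ ≤ ∑ σ ∈ (univ.filter fun σ : {x // x ∈ R} → Perm (Fin n) =>
      m ≤ ((∑ i, (univ.filter fun x => (i.1, x, σ i x) ∈ V).card : ℕ) : ℝ)),
        lam ^ (∑ i, (univ.filter fun x => (i.1, x, σ i x) ∈ V).card) := by
        refine sum_le_sum fun σ hσ => ?_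
        have h4 := (mem_filter.1 hσ).2
        have h5 : ∀ k : ℕ, lam ^ k = Real.exp (k * Real.log lam) := by
          intro k
          rw [Real.exp_nat_mul, Real.exp_log hl0]
        rw [h5]
        exact Real.exp_le_exp.2 (mul_le_mul_of_nonneg_right h4 hlog)
    _ ≤ _ := sum_le_sum_of_subset_of_nonneg (subset_univ _) fun _ _ _ => by positivity

theorem avg {n : ℕ} (k : ℕ) (hk : k ≤ n) (h : Fin n → ℝ) :
    ∃ R : Finset (Fin n), R.card = k ∧ (k : ℝ) * ∑ i, h i ≤ n * ∑ i ∈ R, h i := by
  classical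
  have hne : (powersetCard k (univ : Finset (Fin n))).Nonempty := by
    rw [powersetCard_nonempty, card_univ, Fintype.card_fin]
    exact hk
  obtain ⟨R, hR, hmax⟩ := exists_max_image _ (fun R : Finset (Fin n) => ∑ i ∈ R, h i) hne
  have hRc : R.card = k := (mem_powersetCard.1 hR).2
  refine ⟨R, hRc, ?_⟩
  have h1 : ∀ i ∈ R, ∀ j ∈ Rᶜ, h j ≤ h i := by
    intro i hi j hj
    rw [mem_compl] at hj
    have h2 := hmax (insert j (R.erase i)) ?_
    · have hj2 : j ∉ R.erase i := fun h3 => hj (mem_of_mem_erase h3)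
      rw [sum_insert hj2] at h2
      have h3 := add_sum_erase R h hi
      linarith
    · rw [mem_powersetCard]
      refine ⟨subset_univ _, ?_⟩
      have hj2 : j ∉ R.erase i := fun h3 => hj (mem_of_mem_erase h3)
      rw [card_insert_of_notMem hj2, card_erase_of_mem hi, hRc]
      have : 0 < R.card := card_pos.2 ⟨i, hi⟩
      omega
  have h2 : ∑ i ∈ R, ∑ j ∈ Rᶜ, h j ≤ ∑ i ∈ R, ∑ _j ∈ Rᶜ, h i :=
    sum_le_sum fun i hi => sum_le_sum fun j hj => h1 i hi j hj
  have h3 : (Rᶜ.card : ℝ) = n - k := by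
    rw [card_compl, Fintype.card_fin, hRc, Nat.cast_sub hk]
  simp only [sum_const, nsmul_eq_mul] at h2
  rw [← mul_sum, h3, hRc] at h2
  rw [← sum_add_sum_compl R h]
  linarith

/-- **Few Latin squares have many entries in a small set** -/
theorem count_V {n : ℕ} (hn : 1 ≤ n) (k : ℕ) (hk : 2 * k ≤ n) (V : Finset (T n)) (lam : ℝ)
    (hlam : 1 ≤ lam) (m : ℝ) :
    (((LL n).filter fun L => m ≤ ((univ.filter fun p : Fin n × Fin n =>
      (p.1, p.2, L p.1 p.2) ∈ V).card : ℝ)).card : ℝ) ≤
      (LL n).card * Real.exp (n + (2 * k ^ 2 + 2 * n * (1 + Real.log n) ^ 2) +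
        Real.exp 1 * (lam - 1) * V.card / n - k * m / n * Real.log lam) := by
  classical
  have hn0 : (0 : ℝ) < n := by exact_mod_cast hn
  have hk0 : (0 : ℝ) ≤ k := Nat.cast_nonneg k
  set B : (R : Finset (Fin n)) → Finset ({x // x ∈ R} → Perm (Fin n)) := fun R =>
    univ.filter fun σ => k * m / n ≤ ((∑ i, (univ.filter fun x => (i.1, x, σ i x) ∈ V).card : ℕ) : ℝ)
    with hB
  have hsub : ((LL n).filter fun L => m ≤ ((univ.filter fun p : Fin n × Fin n =>
      (p.1, p.2, L p.1 p.2) ∈ V).card : ℝ)) ⊆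
      (powersetCard k (univ : Finset (Fin n))).biUnion fun R =>
        (LL n).filter fun L => (fun i : {x // x ∈ R} => L i.1) ∈ B R := by
    intro L hL
    rw [mem_filter] at hL
    obtain ⟨R, hR, hRs⟩ := avg k (by omega)
      (fun i : Fin n => ((univ.filter fun x => (i, x, L i x) ∈ V).card : ℝ))
    have h1 : ∑ i : Fin n, ((univ.filter fun x => (i, x, L i x) ∈ V).card : ℝ) =
        ((univ.filter fun p : Fin n × Fin n => (p.1, p.2, L p.1 p.2) ∈ V).card : ℝ) := by
      rw [← Nat.cast_sum, ← card_sigma]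
      congr 1
      refine card_bij (fun p _ => (p.1, p.2)) ?_ ?_ ?_
      · rintro ⟨i, x⟩ hp
        rw [mem_sigma, mem_filter] at hp
        exact mem_filter.2 ⟨mem_univ _, hp.2.2⟩
      · rintro ⟨i, x⟩ _ ⟨j, y⟩ _ h
        simp only [Prod.mk.injEq] at h
        obtain ⟨rfl, rfl⟩ := h
        rfl
      · rintro ⟨i, x⟩ h
        refine ⟨⟨i, x⟩, ?_, rfl⟩
        rw [mem_sigma, mem_filter]
        exact ⟨mem_univ _, mem_univ _, (mem_filter.1 h).2⟩
    rw [h1] at hRs
    rw [mem_biUnion]
    refine ⟨R, mem_powersetCard.2 ⟨subset_univ _, hR⟩, mem_filter.2 ⟨hL.1, ?_⟩⟩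
    rw [hB]
    refine mem_filter.2 ⟨mem_univ _, ?_⟩
    rw [div_le_iff₀ hn0]
    have h2 : ((∑ i : {x // x ∈ R}, (univ.filter fun x => (i.1, x, L i.1 x) ∈ V).card : ℕ) : ℝ) =
        ∑ i ∈ R, ((univ.filter fun x => (i, x, L i x) ∈ V).card : ℝ) := by
      push_cast
      exact sum_coe_sort R fun i => ((univ.filter fun x => (i, x, L i x) ∈ V).card : ℝ)
    rw [h2]
    calc (k : ℝ) * m ≤ k * ((univ.filter fun p : Fin n × Fin n =>
          (p.1, p.2, L p.1 p.2) ∈ V).card : ℝ) := mul_le_mul_of_nonneg_left hL.2 hk0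
      _ ≤ _ := hRs
      _ = _ := mul_comm _ _
  have h1 : ∀ R ∈ powersetCard k (univ : Finset (Fin n)),
      (((LL n).filter fun L => (fun i : {x // x ∈ R} => L i.1) ∈ B R).card : ℝ) ≤
      (LL n).card * Real.exp ((2 * k ^ 2 + 2 * n * (1 + Real.log n) ^ 2) +
        Real.exp 1 * (lam - 1) * V.card / n - k * m / n * Real.log lam) := by
    intro R hR
    have hRk : R.card = k := (mem_powersetCard.1 hR).2
    have h2 := restr R (B R)
    have h3 := tuple_count hn R V lam hlam (k * m / n)
    rw [← le_div_iff₀ (Real.exp_pos _), mul_div_assoc ((n.factorial : ℝ) ^ R.card),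
      ← Real.exp_sub] at h3
    rw [hRk] at h2 h3
    have h4 : (n.factorial : ℝ) ^ k = Real.exp (k * Real.log (n.factorial : ℝ)) := by
      rw [Real.exp_nat_mul, Real.exp_log (by positivity)]
    rw [h4, ← Real.exp_add] at h3
    refine h2.trans ((mul_le_mul_of_nonneg_right h3 (Real.exp_nonneg _)).trans ?_)
    rw [← Real.exp_add]
    refine le_trans ?_ (mul_le_mul_of_nonneg_right (LL_ge n) (Real.exp_nonneg _))
    rw [← Real.exp_add]
    refine Real.exp_le_exp.2 ?_
    have h5 := balance n k hk hn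
    linarith
  calc _ ≤ ∑ R ∈ powersetCard k (univ : Finset (Fin n)),
        (((LL n).filter fun L => (fun i : {x // x ∈ R} => L i.1) ∈ B R).card : ℝ) := by
        exact_mod_cast (card_le_card hsub).trans card_biUnion_le
    _ ≤ ∑ _R ∈ powersetCard k (univ : Finset (Fin n)),
        (LL n).card * Real.exp ((2 * k ^ 2 + 2 * n * (1 + Real.log n) ^ 2) +
        Real.exp 1 * (lam - 1) * V.card / n - k * m / n * Real.log lam) := sum_le_sum h1
    _ = ((powersetCard k (univ : Finset (Fin n))).card : ℝ) *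
        ((LL n).card * Real.exp ((2 * k ^ 2 + 2 * n * (1 + Real.log n) ^ 2) +
        Real.exp 1 * (lam - 1) * V.card / n - k * m / n * Real.log lam)) := by
        rw [sum_const, nsmul_eq_mul]
    _ ≤ Real.exp n * ((LL n).card * Real.exp ((2 * k ^ 2 + 2 * n * (1 + Real.log n) ^ 2) +
        Real.exp 1 * (lam - 1) * V.card / n - k * m / n * Real.log lam)) := by
        refine mul_le_mul_of_nonneg_right ?_ (by positivity)
        have h2 : (powersetCard k (univ : Finset (Fin n))).card ≤ 2 ^ n := by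
          rw [card_powersetCard, card_univ, Fintype.card_fin]
          exact Nat.choose_le_two_pow n k
        have h3 : (2 : ℝ) ^ n ≤ Real.exp n := by
          rw [show (n : ℝ) = n * 1 by ring, Real.exp_nat_mul]
          refine pow_le_pow_left₀ (by norm_num) ?_ _
          have := Real.add_one_le_exp (1 : ℝ)
          linarith
        refine le_trans ?_ h3
        exact_mod_cast h2
    _ = _ := by
        rw [mul_left_comm, ← Real.exp_add]
        congr 2
        ring

end Pool.Agent.T2H17.BL
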